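import Mathlib

/-! # The divisor bound `d(n) ≤ C_ε n^ε` -/

namespace Pool.Agent.Helper13.Hall

open Finset

lemma prime_factor_bound {ε : ℝ} (hε : 0 < ε) (p a : ℕ) (hp : 2 ≤ p) :
    ((a : ℝ) + 1) ≤ (if (p : ℝ) ^ ε < 2 then 1 + 1 / (ε * Real.log 2) else 1) * (p : ℝ) ^ (a * ε) := by
  have hp0 : (0 : ℝ) ≤ (p : ℝ) := Nat.cast_nonneg p
  have hp2 : (2 : ℝ) ≤ (p : ℝ) := by exact_mod_cast hp
  have hlog : 0 < Real.log 2 := Real.log_pos (by norm_num)
  split_ifs with h
  · have h1 : (1 : ℝ) + a * ε * Real.log 2 ≤ (p : ℝ) ^ (a * ε) := by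
      calc (1 : ℝ) + a * ε * Real.log 2 ≤ Real.exp (a * ε * Real.log 2) := by
            have := Real.add_one_le_exp ((a : ℝ) * ε * Real.log 2)
            linarith
        _ = (2 : ℝ) ^ ((a : ℝ) * ε) := by
            rw [Real.rpow_def_of_pos (by norm_num)]
            ring_nf
        _ ≤ (p : ℝ) ^ (a * ε) := Real.rpow_le_rpow (by norm_num) hp2 (by positivity)
    have h2 : (0 : ℝ) < 1 + 1 / (ε * Real.log 2) := by positivity
    calc ((a : ℝ) + 1) ≤ (1 + 1 / (ε * Real.log 2)) * (1 + a * ε * Real.log 2) := by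
          have h3 : 1 / (ε * Real.log 2) * (a * ε * Real.log 2) = a := by
            field_simp
          have h4 : (0 : ℝ) ≤ a * ε * Real.log 2 := by positivity
          have h5 : (0 : ℝ) ≤ 1 / (ε * Real.log 2) := by positivity
          nlinarith
      _ ≤ _ := mul_le_mul_of_nonneg_left h1 h2.le
  · push Not at h
    rw [one_mul, mul_comm, Real.rpow_mul hp0, Real.rpow_natCast]
    calc ((a : ℝ) + 1) ≤ 2 ^ a := by
          have := one_add_mul_le_pow (a := (1 : ℝ)) (by norm_num) a
          norm_num at this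
          linarith
      _ ≤ ((p : ℝ) ^ ε) ^ a := pow_le_pow_left₀ (by norm_num) h a

/-- the divisor bound -/
theorem divisor_bound {ε : ℝ} (hε : 0 < ε) :
    ∃ C : ℝ, 1 ≤ C ∧ ∀ n : ℕ, ((n.divisors.card : ℕ) : ℝ) ≤ C * (n : ℝ) ^ ε := by
  set M : ℝ := 1 + 1 / (ε * Real.log 2) with hM
  have hlog : 0 < Real.log 2 := Real.log_pos (by norm_num)
  have hM1 : 1 ≤ M := by
    have : 0 < 1 / (ε * Real.log 2) := by positivity
    linarith
  set P : ℕ := ⌈(2 : ℝ) ^ (1 / ε)⌉₊ + 1 with hP
  refine ⟨M ^ P, one_le_pow₀ hM1, ?_⟩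
  intro n
  rcases eq_or_ne n 0 with rfl | hn
  · simp
    positivity
  rw [Nat.card_divisors hn]
  push_cast
  have hprod : (n : ℝ) ^ ε = ∏ p ∈ n.primeFactors, (p : ℝ) ^ ((n.factorization p : ℝ) * ε) := by
    conv_lhs => rw [← Nat.prod_factorization_pow_eq_self hn]
    rw [Finsupp.prod]
    push_cast
    rw [← Real.finsetProd_rpow]
    · apply Finset.prod_congr (Nat.support_factorization n)
      intro p hp
      rw [← Real.rpow_natCast, ← Real.rpow_mul (Nat.cast_nonneg p)]
    · intro p hp
      positivity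
  calc ∏ p ∈ n.primeFactors, ((n.factorization p : ℝ) + 1)
      ≤ ∏ p ∈ n.primeFactors, ((if (p : ℝ) ^ ε < 2 then M else 1) * (p : ℝ) ^ ((n.factorization p : ℝ) * ε)) := by
        apply Finset.prod_le_prod
        · intro p hp; positivity
        · intro p hp
          exact prime_factor_bound hε p _ (Nat.prime_of_mem_primeFactors hp).two_le
    _ = (∏ p ∈ n.primeFactors, (if (p : ℝ) ^ ε < 2 then M else 1)) * (n : ℝ) ^ ε := by
        rw [Finset.prod_mul_distrib, hprod]
    _ ≤ M ^ P * (n : ℝ) ^ ε := by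
        apply mul_le_mul_of_nonneg_right _ (by positivity)
        rw [← Finset.prod_filter]
        rw [Finset.prod_const]
        apply pow_le_pow_right₀ hM1
        calc _ ≤ (Finset.range P).card := by
              apply Finset.card_le_card
              intro p hp
              rw [Finset.mem_filter] at hp
              rw [Finset.mem_range]
              have h1 : (p : ℝ) < 2 ^ (1 / ε) := by
                have h2 := Real.rpow_lt_rpow (by positivity) hp.2 (z := 1 / ε) (by positivity)
                rwa [← Real.rpow_mul (Nat.cast_nonneg p), mul_one_div_cancel hε.ne', Real.rpow_one] at h2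
              have h3 : (p : ℝ) < (P : ℝ) := by
                rw [hP]; push_cast
                have := Nat.le_ceil ((2 : ℝ) ^ (1 / ε))
                linarith
              exact_mod_cast h3
          _ = P := Finset.card_range P

end Pool.Agent.Helper13.Hall
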