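import Mathlib

/-! # Elementary counting lemmas: integers in a residue class, square roots modulo `m` -/

namespace Pool.Agent.Helper13.Hall

open Finset

lemma card_le_of_dvd_sub {S : Finset ℤ} {m : ℤ} (hm : 0 < m) {L : ℝ} (hL : 0 ≤ L)
    (h1 : ∀ a ∈ S, ∀ b ∈ S, m ∣ a - b) (h2 : ∀ a ∈ S, ∀ b ∈ S, ((a : ℝ) - b) ≤ L) :
    (S.card : ℝ) ≤ L / m + 1 := by
  have hm' : (0 : ℝ) < m := by exact_mod_cast hm
  rcases S.eq_empty_or_nonempty with rfl | hS
  · simp; positivity
  set a0 := S.min' hS with ha0
  have ha0S : a0 ∈ S := S.min'_mem hS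
  have hcard : S.card ≤ (Finset.range (⌊L / m⌋₊ + 1)).card := by
    apply Finset.card_le_card_of_injOn (fun b => ((b - a0) / m).toNat)
    · intro b hb
      have hb' : b ∈ S := hb
      have hle : a0 ≤ b := S.min'_le b hb'
      obtain ⟨q, hq⟩ := h1 b hb' a0 ha0S
      have hq0 : 0 ≤ q := by
        by_contra hneg
        push Not at hneg
        have : b - a0 < 0 := by rw [hq]; exact mul_neg_of_pos_of_neg hm hneg
        omega
      simp only [Finset.coe_range, Set.mem_Iio]
      rw [hq, Int.mul_ediv_cancel_left _ hm.ne']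
      rw [Nat.lt_succ_iff]
      apply Nat.le_floor
      have h3 := h2 b hb' a0 ha0S
      have h4 : ((b : ℝ) - a0) = m * q := by exact_mod_cast hq
      rw [le_div_iff₀ hm']
      have h5 : ((q.toNat : ℕ) : ℝ) = (q : ℝ) := by
        have := Int.toNat_of_nonneg hq0
        exact_mod_cast this
      rw [h5]
      linarith
    · intro b hb c hc hbc
      have hb' : b ∈ S := hb
      have hc' : c ∈ S := hc
      have hleb : a0 ≤ b := S.min'_le b hb'
      have hlec : a0 ≤ c := S.min'_le c hc'
      obtain ⟨q, hq⟩ := h1 b hb' a0 ha0S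
      obtain ⟨r, hr⟩ := h1 c hc' a0 ha0S
      have hq0 : 0 ≤ q := by
        by_contra hneg
        push Not at hneg
        have : b - a0 < 0 := by rw [hq]; exact mul_neg_of_pos_of_neg hm hneg
        omega
      have hr0 : 0 ≤ r := by
        by_contra hneg
        push Not at hneg
        have : c - a0 < 0 := by rw [hr]; exact mul_neg_of_pos_of_neg hm hneg
        omega
      simp only at hbc
      rw [hq, hr, Int.mul_ediv_cancel_left _ hm.ne', Int.mul_ediv_cancel_left _ hm.ne'] at hbc
      have : q = r := by omega
      subst this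
      omega
  rw [Finset.card_range] at hcard
  have h6 : (S.card : ℝ) ≤ ((⌊L / m⌋₊ + 1 : ℕ) : ℝ) := by exact_mod_cast hcard
  push_cast at h6
  have h7 := Nat.floor_le (show 0 ≤ L / m by positivity)
  linarith

/-- Number of solutions of `a z² + A ≡ 0 (mod m)`. -/
lemma card_roots_le {m : ℕ} (hm : 0 < m) {a A : ℤ} (ha : 0 < a) {H : ℝ} (hH : 0 ≤ H)
    (hh : ∀ h : ℕ, h ∣ m → ((h : ℤ) ^ 2 ∣ 4 * a * A) → (h : ℝ) ≤ H) :
    (((Finset.Ico (0 : ℤ) m).filter (fun z => (m : ℤ) ∣ a * z ^ 2 + A)).card : ℝ)
      ≤ m.divisors.card * (a * H + 1) := by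
  classical
  set S := (Finset.Ico (0 : ℤ) m).filter (fun z => (m : ℤ) ∣ a * z ^ 2 + A) with hS
  have hapos : (0 : ℝ) < a := by exact_mod_cast ha
  rcases S.eq_empty_or_nonempty with hemp | ⟨z0, hz0⟩
  · rw [hemp]; simp; positivity
  have hz0' : (m : ℤ) ∣ a * z0 ^ 2 + A := (Finset.mem_filter.mp hz0).2
  have hmaps : ∀ z ∈ S, Int.gcd (z - z0) m ∈ m.divisors := by
    intro z _
    rw [Nat.mem_divisors]
    refine ⟨?_, hm.ne'⟩
    have := Int.gcd_dvd_right (z - z0) (m : ℤ)
    exact_mod_cast this
  rw [Finset.card_eq_sum_card_fiberwise (f := fun z => Int.gcd (z - z0) m) (t := m.divisors)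
    (by intro z hz; exact hmaps z hz)]
  push_cast
  calc ∑ g ∈ m.divisors, ((S.filter (fun z => Int.gcd (z - z0) m = g)).card : ℝ)
      ≤ ∑ g ∈ m.divisors, (a * H + 1) := by
        apply Finset.sum_le_sum
        intro g hg
        have hgm : g ∣ m := (Nat.mem_divisors.mp hg).1
        obtain ⟨m', hm'⟩ := hgm
        have hg0 : 0 < g := Nat.pos_of_dvd_of_pos ⟨m', hm'⟩ hm
        have hm'0 : 0 < m' := by
          rcases Nat.eq_zero_or_pos m' with h0 | h0
          · rw [h0] at hm'; omega
          · exact h0
        -- fibre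
        set F := S.filter (fun z => Int.gcd (z - z0) m = g) with hF
        have key : ∀ z ∈ F, (g : ℤ) ∣ z - z0 ∧ (m' : ℤ) ∣ a * (z + z0) := by
          intro z hz
          rw [hF, Finset.mem_filter] at hz
          obtain ⟨hzS, hgz⟩ := hz
          have hz' : (m : ℤ) ∣ a * z ^ 2 + A := (Finset.mem_filter.mp hzS).2
          have h1 : (g : ℤ) ∣ z - z0 := by
            rw [← hgz]; exact Int.gcd_dvd_left (z - z0) m
          refine ⟨h1, ?_⟩
          obtain ⟨t, ht⟩ := h1
          have hcop : IsCoprime (m' : ℤ) t := by
            have h2 : Int.gcd (g * t) (g * m' : ℤ) = g := by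
              rw [← ht]
              have : (g : ℤ) * m' = (m : ℤ) := by rw [hm']; push_cast; ring
              rw [this]; exact hgz
            rw [Int.gcd_mul_left] at h2
            have h3 : Int.gcd t m' = 1 := by
              have : (Int.natAbs (g : ℤ)) = g := Int.natAbs_natCast g
              rw [this] at h2
              exact Nat.eq_of_mul_eq_mul_left hg0 (by rw [h2, mul_one])
            exact (Int.isCoprime_iff_gcd_eq_one.mpr h3).symm
          have h4 : (m : ℤ) ∣ (z - z0) * (a * (z + z0)) := by
            have h5 := dvd_sub hz' hz0'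
            have h6 : (z - z0) * (a * (z + z0)) = a * z ^ 2 + A - (a * z0 ^ 2 + A) := by ring
            rw [h6]; exact h5
          rw [ht, hm'] at h4
          push_cast at h4
          have h7 : (m' : ℤ) ∣ t * (a * (z + z0)) := by
            have h8 : (g : ℤ) * m' ∣ g * (t * (a * (z + z0))) := by
              convert h4 using 1; ring
            exact Int.dvd_of_mul_dvd_mul_left (by exact_mod_cast hg0.ne') h8
          exact hcop.dvd_of_dvd_mul_left h7
        rcases F.eq_empty_or_nonempty with hFe | ⟨z1, hz1⟩
        · rw [hFe]; simp; positivity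
        -- h = gcd g m'
        set h := Nat.gcd g m' with hh_def
        have hhpos : 0 < h := Nat.gcd_pos_of_pos_left m' hg0
        obtain ⟨g1, hg1⟩ := Nat.gcd_dvd_left g m'
        obtain ⟨m1, hm1⟩ := Nat.gcd_dvd_right g m'
        rw [← hh_def] at hg1 hm1
        have hhm : h ∣ m := by
          rw [hm']; exact Dvd.dvd.mul_right (Nat.gcd_dvd_left g m') m'
        have hh2 : ((h : ℤ) ^ 2 ∣ 4 * a * A) := by
          obtain ⟨k1, k2⟩ := key z1 hz1
          have hhg : (h : ℤ) ∣ g := by exact_mod_cast Nat.gcd_dvd_left g m'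
          have hhm' : (h : ℤ) ∣ m' := by exact_mod_cast Nat.gcd_dvd_right g m'
          have e1 : (h : ℤ) ∣ 2 * a * z0 := by
            have e2 : (h : ℤ) ∣ a * (z1 + z0) := dvd_trans hhm' k2
            have e3 : (h : ℤ) ∣ a * (z1 - z0) := Dvd.dvd.mul_left (dvd_trans hhg k1) a
            have e4 := dvd_sub e2 e3
            have e5 : a * (z1 + z0) - a * (z1 - z0) = 2 * a * z0 := by ring
            rwa [e5] at e4
          have e6 : (h : ℤ) ^ 2 ∣ a * z0 ^ 2 + A := by
            apply dvd_trans _ hz0'
            rw [hm', sq]; push_cast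
            exact mul_dvd_mul hhg hhm'
          have e7 : (h : ℤ) ^ 2 ∣ (2 * a * z0) ^ 2 := pow_dvd_pow_of_dvd e1 2
          have e8 : 4 * a * A = 4 * a * (a * z0 ^ 2 + A) - (2 * a * z0) ^ 2 := by ring
          rw [e8]
          exact dvd_sub (Dvd.dvd.mul_left e6 _) e7
        have hhH : (h : ℝ) ≤ H := hh h hhm hh2
        -- image under multiplication by a
        have himg : (F.image (fun z => a * z)).card = F.card := by
          apply Finset.card_image_of_injective
          intro x y hxy
          exact mul_left_cancel₀ ha.ne' hxy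
        rw [← himg]
        -- modulus m / h = g * m1
        have hmodpos : (0 : ℤ) < (g * m1 : ℤ) := by
          have : 0 < m1 := by
            rcases Nat.eq_zero_or_pos m1 with h0 | h0
            · rw [h0] at hm1; omega
            · exact h0
          exact_mod_cast Nat.mul_pos hg0 this
        have hb := card_le_of_dvd_sub (S := F.image (fun z => a * z)) hmodpos
          (L := a * m) (by positivity)
          (by
            intro x hx y hy
            rw [Finset.mem_image] at hx hy
            obtain ⟨x, hx, rfl⟩ := hx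
            obtain ⟨y, hy, rfl⟩ := hy
            obtain ⟨kx1, kx2⟩ := key x hx
            obtain ⟨ky1, ky2⟩ := key y hy
            have c1 : (g : ℤ) ∣ a * x - a * y := by
              have : a * x - a * y = a * ((x - z0) - (y - z0)) := by ring
              rw [this]; exact Dvd.dvd.mul_left (dvd_sub kx1 ky1) a
            have c2 : (m' : ℤ) ∣ a * x - a * y := by
              have : a * x - a * y = a * (x + z0) - a * (y + z0) := by ring
              rw [this]; exact dvd_sub kx2 ky2
            -- lcm
            have c3 : ((Nat.lcm g m' : ℕ) : ℤ) ∣ a * x - a * y := by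
              rw [Int.natCast_dvd]
              apply Nat.lcm_dvd
              · rwa [← Int.natCast_dvd]
              · rwa [← Int.natCast_dvd]
            have c4 : Nat.lcm g m' = g * m1 := by
              rw [Nat.lcm, ← hh_def]
              rw [hm1, Nat.mul_left_comm, Nat.mul_div_cancel_left _ hhpos]
            rw [c4] at c3
            exact_mod_cast c3)
          (by
            intro x hx y hy
            rw [Finset.mem_image] at hx hy
            obtain ⟨x, hx, rfl⟩ := hx
            obtain ⟨y, hy, rfl⟩ := hy
            have hx1 := Finset.mem_Ico.mp (Finset.mem_filter.mp (Finset.mem_filter.mp hx).1).1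
            have hy1 := Finset.mem_Ico.mp (Finset.mem_filter.mp (Finset.mem_filter.mp hy).1).1
            have hx2 : (x : ℝ) < m := by exact_mod_cast hx1.2
            have hy2 : (0 : ℝ) ≤ y := by exact_mod_cast hy1.1
            push_cast
            nlinarith)
        refine hb.trans ?_
        have hm_eq : (m : ℝ) = g * m1 * h := by
          rw [hm']; conv_lhs => rw [hm1]
          push_cast; ring
        have : (a : ℝ) * m / ((g * m1 : ℤ) : ℝ) = a * h := by
          rw [hm_eq]
          have hp : ((g * m1 : ℤ) : ℝ) ≠ 0 := by exact_mod_cast hmodpos.ne'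
          rw [div_eq_iff hp]
          push_cast
          ring
        rw [this]
        nlinarith
    _ = m.divisors.card * (a * H + 1) := by
        rw [Finset.sum_const, nsmul_eq_mul]

end Pool.Agent.Helper13.Hall
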