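import Mathlib
import Pool.Agent.Helper13.Hall.Count

/-! # Sums used in the counting argument -/

namespace Pool.Agent.Helper13.Hall

open Finset

/-- the sum of all `h` with `h² ∣ 12 n` -/
def sqF (n : ℕ) : ℕ := ∑ h ∈ (12 * n).divisors.filter (fun h => h ^ 2 ∣ 12 * n), h

lemma le_sqF {n h : ℕ} (hn : n ≠ 0) (hh : h ^ 2 ∣ 12 * n) : h ≤ sqF n := by
  unfold sqF
  have h1 : h ∣ 12 * n := dvd_trans (dvd_pow_self h two_ne_zero) hh
  have hmem : h ∈ (12 * n).divisors.filter (fun h => h ^ 2 ∣ 12 * n) := by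
    rw [Finset.mem_filter, Nat.mem_divisors]
    exact ⟨⟨h1, by omega⟩, hh⟩
  exact Finset.single_le_sum (f := fun h => h) (fun i _ => Nat.zero_le i) hmem

lemma one_le_sqF {n : ℕ} (hn : n ≠ 0) : 1 ≤ sqF n := le_sqF hn (by simp)

lemma card_mul_sq_le (a h : ℕ) (hh : 0 < h) :
    (((Finset.Icc 1 a).filter (fun n => h ^ 2 ∣ 12 * n)).card : ℝ) ≤ 12 * a / (h : ℝ) ^ 2 := by
  have hcard : ((Finset.Icc 1 a).filter (fun n => h ^ 2 ∣ 12 * n)).card ≤ (12 * a) / h ^ 2 := by
    rw [← Nat.Ioc_filter_dvd_card_eq_div (12 * a) (h ^ 2)]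
    apply Finset.card_le_card_of_injOn (fun n => 12 * n)
    · intro n hn
      have hn' := Finset.mem_filter.mp hn
      have h2 := Finset.mem_Icc.mp hn'.1
      simp only [Finset.coe_filter, Finset.mem_Ioc, Set.mem_ofPred_eq]
      refine ⟨⟨by omega, by omega⟩, hn'.2⟩
    · intro x _ y _ hxy
      simp only at hxy
      omega
  calc (((Finset.Icc 1 a).filter (fun n => h ^ 2 ∣ 12 * n)).card : ℝ)
      ≤ (((12 * a) / h ^ 2 : ℕ) : ℝ) := by exact_mod_cast hcard
    _ ≤ ((12 * a : ℕ) : ℝ) / ((h ^ 2 : ℕ) : ℝ) := Nat.cast_div_le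
    _ = 12 * a / (h : ℝ) ^ 2 := by push_cast; ring

lemma sum_inv_le (n : ℕ) : ∑ h ∈ Finset.Icc 1 n, (1 : ℝ) / h ≤ 1 + Real.log n := by
  have h1 := harmonic_le_one_add_log n
  have h2 : ((harmonic n : ℚ) : ℝ) = ∑ h ∈ Finset.Icc 1 n, (1 : ℝ) / h := by
    rw [harmonic_eq_sum_Icc]
    push_cast
    apply Finset.sum_congr rfl
    intro i _
    rw [one_div]
  rw [← h2]; exact h1

lemma sum_sqF_le (a : ℕ) : ∑ n ∈ Finset.Icc 1 a, (sqF n : ℝ) ≤ 12 * a * (1 + Real.log (12 * a)) := by
  have h1 : ∀ n ∈ Finset.Icc 1 a, (sqF n : ℝ) ≤ ∑ h ∈ Finset.Icc 1 (12 * a), (if h ^ 2 ∣ 12 * n then (h : ℝ) else 0) := by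
    intro n hn
    have hn' := Finset.mem_Icc.mp hn
    unfold sqF
    push_cast
    rw [← Finset.sum_filter]
    apply Finset.sum_le_sum_of_subset_of_nonneg
    · intro h hh
      rw [Finset.mem_filter, Nat.mem_divisors] at hh
      rw [Finset.mem_filter, Finset.mem_Icc]
      refine ⟨⟨?_, ?_⟩, hh.2⟩
      · exact Nat.pos_of_dvd_of_pos hh.1.1 (by omega)
      · exact (Nat.le_of_dvd (by omega) hh.1.1).trans (by omega)
    · intro i _ _; positivity
  calc ∑ n ∈ Finset.Icc 1 a, (sqF n : ℝ)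
      ≤ ∑ n ∈ Finset.Icc 1 a, ∑ h ∈ Finset.Icc 1 (12 * a), (if h ^ 2 ∣ 12 * n then (h : ℝ) else 0) :=
        Finset.sum_le_sum h1
    _ = ∑ h ∈ Finset.Icc 1 (12 * a), ∑ n ∈ Finset.Icc 1 a, (if h ^ 2 ∣ 12 * n then (h : ℝ) else 0) :=
        Finset.sum_comm
    _ ≤ ∑ h ∈ Finset.Icc 1 (12 * a), (12 * a : ℝ) * (1 / h) := by
        apply Finset.sum_le_sum
        intro h hh
        have hh' := Finset.mem_Icc.mp hh
        have hpos : (0 : ℝ) < h := by exact_mod_cast hh'.1
        rw [← Finset.sum_filter, Finset.sum_const, nsmul_eq_mul]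
        calc _ ≤ (12 * a / (h : ℝ) ^ 2) * (h : ℝ) :=
              mul_le_mul_of_nonneg_right (card_mul_sq_le a h hh'.1) hpos.le
          _ = _ := by field_simp
    _ = 12 * a * ∑ h ∈ Finset.Icc 1 (12 * a), (1 : ℝ) / h := by rw [Finset.mul_sum]
    _ ≤ 12 * a * (1 + Real.log (12 * a)) := by
        apply mul_le_mul_of_nonneg_left _ (by positivity)
        have := sum_inv_le (12 * a)
        push_cast at this
        exact this

lemma sum_inv_sqrt_le (J : ℕ) : ∑ j ∈ Finset.Icc 1 J, 1 / Real.sqrt j ≤ 2 * Real.sqrt J := by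
  induction J with
  | zero => simp
  | succ J ih =>
    rw [Finset.sum_Icc_succ_top (by omega)]
    have h1 : 1 / Real.sqrt ((J + 1 : ℕ) : ℝ) ≤ 2 * (Real.sqrt ((J + 1 : ℕ) : ℝ) - Real.sqrt J) := by
      have hp : 0 < Real.sqrt ((J + 1 : ℕ) : ℝ) := Real.sqrt_pos.mpr (by positivity)
      have hle : Real.sqrt J ≤ Real.sqrt ((J + 1 : ℕ) : ℝ) := Real.sqrt_le_sqrt (by push_cast; linarith)
      have hs1 : Real.sqrt ((J + 1 : ℕ) : ℝ) ^ 2 = J + 1 := by
        rw [Real.sq_sqrt (by positivity)]; push_cast; ring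
      have hs2 : Real.sqrt (J : ℝ) ^ 2 = J := Real.sq_sqrt (by positivity)
      have h0 : 0 ≤ Real.sqrt (J : ℝ) := Real.sqrt_nonneg _
      rw [div_le_iff₀ hp]
      nlinarith
    linarith

/-- the positive integers at most `K` in a residue class: sum of inverse square roots -/
lemma sum_inv_sqrt_class_pos {S : Finset ℤ} {m : ℕ} (hm : 0 < m) {K : ℝ} (hK : 0 ≤ K)
    (h1 : ∀ a ∈ S, ∀ b ∈ S, (m : ℤ) ∣ a - b) (h2 : ∀ a ∈ S, 0 < a ∧ (a : ℝ) ≤ K) :
    ∑ k ∈ S, 1 / Real.sqrt (k : ℝ) ≤ 1 + 2 * Real.sqrt K / m := by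
  classical
  have hmR : (0 : ℝ) < m := by exact_mod_cast hm
  set J := ⌊K / m⌋₊ with hJ
  let w : ℕ → ℝ := fun j => if j = 0 then 1 else 1 / Real.sqrt (m * j)
  have hw : ∀ j, 0 ≤ w j := by
    intro j; simp only [w]; split_ifs <;> positivity
  have hinj : Set.InjOn (fun k : ℤ => (k / m).toNat) (S : Set ℤ) := by
    intro b hb c hc hbc
    have hb0 := (h2 b hb).1
    have hc0 := (h2 c hc).1
    have hmZ : (0 : ℤ) < m := by exact_mod_cast hm
    simp only at hbc
    have h3 : b / m = c / m := by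
      have e1 : 0 ≤ b / (m : ℤ) := Int.ediv_nonneg hb0.le hmZ.le
      have e2 : 0 ≤ c / (m : ℤ) := Int.ediv_nonneg hc0.le hmZ.le
      omega
    have h4 : b % m = c % m := Int.modEq_iff_dvd.mpr (h1 c hc b hb)
    rw [← Int.mul_ediv_add_emod b m, ← Int.mul_ediv_add_emod c m, h3, h4]
  calc ∑ k ∈ S, 1 / Real.sqrt (k : ℝ) ≤ ∑ k ∈ S, w ((k / m).toNat) := by
        apply Finset.sum_le_sum
        intro k hk
        obtain ⟨hk0, _⟩ := h2 k hk
        have hk1 : (1 : ℝ) ≤ (k : ℝ) := by exact_mod_cast hk0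
        have hmZ : (0 : ℤ) < m := by exact_mod_cast hm
        have e1 : 0 ≤ k / (m : ℤ) := Int.ediv_nonneg hk0.le hmZ.le
        simp only [w]
        split_ifs with hz
        · rw [div_le_one (Real.sqrt_pos.mpr (by linarith))]
          exact Real.one_le_sqrt.mpr hk1
        · have e2 : ((k / m).toNat : ℤ) = k / m := Int.toNat_of_nonneg e1
          have e3 : (m : ℤ) * (k / m).toNat ≤ k := by
            rw [e2]; exact Int.mul_ediv_self_le hmZ.ne'
          have e4 : (m : ℝ) * ((k / m).toNat : ℝ) ≤ k := by exact_mod_cast e3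
          have e5 : (0 : ℝ) < (m : ℝ) * ((k / m).toNat : ℝ) := by
            have : 0 < (k / (m : ℤ)).toNat := Nat.pos_of_ne_zero hz
            positivity
          exact one_div_le_one_div_of_le (Real.sqrt_pos.mpr e5) (Real.sqrt_le_sqrt e4)
    _ = ∑ j ∈ S.image (fun k : ℤ => (k / m).toNat), w j := by
        rw [Finset.sum_image hinj]
    _ ≤ ∑ j ∈ Finset.range (J + 1), w j := by
        apply Finset.sum_le_sum_of_subset_of_nonneg
        · intro j hj
          rw [Finset.mem_image] at hj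
          obtain ⟨k, hk, rfl⟩ := hj
          obtain ⟨hk0, hkK⟩ := h2 k hk
          have hmZ : (0 : ℤ) < m := by exact_mod_cast hm
          have e1 : 0 ≤ k / (m : ℤ) := Int.ediv_nonneg hk0.le hmZ.le
          rw [Finset.mem_range, Nat.lt_succ_iff, hJ]
          apply Nat.le_floor
          have e2 : ((k / m).toNat : ℤ) = k / m := Int.toNat_of_nonneg e1
          have e3 : (m : ℤ) * (k / m).toNat ≤ k := by
            rw [e2]; exact Int.mul_ediv_self_le hmZ.ne'
          have e4 : (m : ℝ) * ((k / m).toNat : ℝ) ≤ k := by exact_mod_cast e3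
          rw [le_div_iff₀ hmR]
          linarith
        · intro j _ _; exact hw j
    _ = 1 + ∑ j ∈ Finset.Icc 1 J, 1 / Real.sqrt (m * j) := by
        rw [Finset.sum_range_succ', add_comm]
        have e0 : w 0 = 1 := by simp [w]
        rw [e0]
        congr 1
        rw [Finset.range_eq_Ico, Finset.sum_Ico_add' w 0 J 1]
        apply Finset.sum_congr
        · ext j; simp only [Finset.mem_Ico, Finset.mem_Icc]; omega
        · intro j hj
          rw [Finset.mem_Icc] at hj
          simp only [w]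
          rw [if_neg (by omega)]
    _ = 1 + (1 / Real.sqrt m) * ∑ j ∈ Finset.Icc 1 J, 1 / Real.sqrt j := by
        rw [Finset.mul_sum]
        congr 1
        apply Finset.sum_congr rfl
        intro j _
        rw [Real.sqrt_mul (by positivity)]
        ring
    _ ≤ 1 + (1 / Real.sqrt m) * (2 * Real.sqrt J) := by
        have := sum_inv_sqrt_le J
        have h0 : 0 ≤ 1 / Real.sqrt m := by positivity
        nlinarith [mul_le_mul_of_nonneg_left this h0]
    _ ≤ 1 + (1 / Real.sqrt m) * (2 * Real.sqrt (K / m)) := by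
        have h3 : Real.sqrt J ≤ Real.sqrt (K / m) := Real.sqrt_le_sqrt (Nat.floor_le (by positivity))
        have h0 : 0 ≤ 1 / Real.sqrt m := by positivity
        have := mul_le_mul_of_nonneg_left (mul_le_mul_of_nonneg_left h3 (by norm_num : (0:ℝ) ≤ 2)) h0
        linarith
    _ = 1 + 2 * Real.sqrt K / m := by
        rw [Real.sqrt_div hK]
        have hs : Real.sqrt m * Real.sqrt m = m := Real.mul_self_sqrt hmR.le
        have hs0 : 0 < Real.sqrt m := Real.sqrt_pos.mpr hmR
        congr 1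
        rw [div_mul_eq_mul_div, one_mul, mul_div_assoc', div_div, hs]

lemma sum_inv_sqrt_class {S : Finset ℤ} {m : ℕ} (hm : 0 < m) {K : ℝ} (hK : 0 ≤ K)
    (h1 : ∀ a ∈ S, ∀ b ∈ S, (m : ℤ) ∣ a - b) (h2 : ∀ a ∈ S, a ≠ 0 ∧ (|a| : ℝ) ≤ K) :
    ∑ k ∈ S, 1 / Real.sqrt (|k| : ℝ) ≤ 2 + 4 * Real.sqrt K / m := by
  classical
  rw [← Finset.sum_filter_add_sum_filter_not S (fun k => 0 < k)]
  have hpos : ∑ k ∈ S.filter (fun k => 0 < k), 1 / Real.sqrt (|(k : ℝ)|) ≤ 1 + 2 * Real.sqrt K / m := by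
    have := sum_inv_sqrt_class_pos (S := S.filter (fun k => 0 < k)) hm hK
      (by
        intro a ha b hb
        exact h1 a (Finset.mem_filter.mp ha).1 b (Finset.mem_filter.mp hb).1)
      (by
        intro a ha
        have ha' := Finset.mem_filter.mp ha
        refine ⟨ha'.2, ?_⟩
        exact (le_abs_self _).trans (h2 a ha'.1).2)
    refine le_trans (le_of_eq ?_) this
    apply Finset.sum_congr rfl
    intro k hk
    have : (0 : ℝ) < k := by exact_mod_cast (Finset.mem_filter.mp hk).2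
    rw [abs_of_pos this]
  have hneg : ∑ k ∈ S.filter (fun k => ¬ 0 < k), 1 / Real.sqrt (|(k : ℝ)|) ≤ 1 + 2 * Real.sqrt K / m := by
    have := sum_inv_sqrt_class_pos (S := (S.filter (fun k => ¬ 0 < k)).image (fun k => -k)) hm hK
      (by
        intro a ha b hb
        rw [Finset.mem_image] at ha hb
        obtain ⟨a, ha, rfl⟩ := ha
        obtain ⟨b, hb, rfl⟩ := hb
        have := h1 b (Finset.mem_filter.mp hb).1 a (Finset.mem_filter.mp ha).1
        have e : -a - -b = b - a := by ring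
        rw [e]; exact this)
      (by
        intro a ha
        rw [Finset.mem_image] at ha
        obtain ⟨a, ha, rfl⟩ := ha
        have ha' := Finset.mem_filter.mp ha
        have hne := (h2 a ha'.1).1
        have hK' := (h2 a ha'.1).2
        refine ⟨by omega, ?_⟩
        push_cast
        exact (neg_le_abs _).trans hK')
    refine le_trans (le_of_eq ?_) this
    rw [Finset.sum_image (by intro x _ y _ hxy; simpa using hxy)]
    apply Finset.sum_congr rfl
    intro k hk
    have hk' := Finset.mem_filter.mp hk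
    have : (k : ℝ) ≤ 0 := by exact_mod_cast not_lt.mp hk'.2
    rw [abs_of_nonpos this]
    push_cast
    rfl
  have : (2 : ℝ) + 4 * Real.sqrt K / m = (1 + 2 * Real.sqrt K / m) + (1 + 2 * Real.sqrt K / m) := by ring
  rw [this]
  exact add_le_add hpos hneg

end Pool.Agent.Helper13.Hall
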