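import Mathlib
import Pool.Agent.Helper13.Hall.Sums

/-! # The count for a fixed denominator `v` -/

namespace Pool.Agent.Helper13.Hall

open Finset

lemma card_square_roots {m : ℕ} (hm : 0 < m) {A : ℤ} (hA : IsCoprime (m : ℤ) A) :
    (((Finset.Ico (0 : ℤ) m).filter (fun z => (m : ℤ) ∣ z ^ 2 - A)).card : ℝ) ≤ 3 * m.divisors.card := by
  have h := card_roots_le (m := m) hm (a := 1) (A := -A) (by norm_num) (H := 2) (by norm_num) (by
    intro h hh hd
    have hcop : IsCoprime ((h : ℤ) ^ 2) A := by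
      apply IsCoprime.pow_left
      exact IsCoprime.of_isCoprime_of_dvd_left hA (by exact_mod_cast hh)
    have h4 : (h : ℤ) ^ 2 ∣ 4 := by
      have h5 : (h : ℤ) ^ 2 ∣ 4 * A := by
        have : (4 : ℤ) * 1 * -A = -(4 * A) := by ring
        rw [this] at hd
        exact (dvd_neg.mp hd)
      exact hcop.dvd_of_dvd_mul_right h5
    have h6 : (h : ℤ) ^ 2 ≤ 4 := Int.le_of_dvd (by norm_num) h4
    have h7 : (h : ℤ) ≤ 2 := by nlinarith
    exact_mod_cast h7)
  have e : (Finset.Ico (0 : ℤ) m).filter (fun z => (m : ℤ) ∣ z ^ 2 - A) =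
      (Finset.Ico (0 : ℤ) m).filter (fun z => (m : ℤ) ∣ 1 * z ^ 2 + -A) := by
    apply Finset.filter_congr
    intro z _
    have : z ^ 2 - A = 1 * z ^ 2 + -A := by ring
    rw [this]
  rw [e]
  refine h.trans (le_of_eq ?_)
  push_cast
  ring

lemma card_quartic_roots {m : ℕ} (hm : 0 < m) {A : ℤ} (hA : IsCoprime (m : ℤ) A) :
    (((Finset.Ico (0 : ℤ) m).filter (fun z => (m : ℤ) ∣ z ^ 4 - A)).card : ℝ)
      ≤ 9 * (m.divisors.card : ℝ) ^ 2 := by
  classical
  have hmZ : (0 : ℤ) < m := by exact_mod_cast hm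
  set S := (Finset.Ico (0 : ℤ) m).filter (fun z => (m : ℤ) ∣ z ^ 4 - A) with hS
  set U := (Finset.Ico (0 : ℤ) m).filter (fun z => (m : ℤ) ∣ z ^ 2 - A) with hU
  have hmaps : ∀ z ∈ S, (z ^ 2 % (m : ℤ)) ∈ U := by
    intro z hz
    have hz2 := (Finset.mem_filter.mp hz).2
    rw [hU, Finset.mem_filter, Finset.mem_Ico]
    refine ⟨⟨Int.emod_nonneg _ hmZ.ne', Int.emod_lt_of_pos _ hmZ⟩, ?_⟩
    have h1 : (z ^ 2 % (m : ℤ)) ^ 2 ≡ (z ^ 2) ^ 2 [ZMOD m] := (Int.mod_modEq _ _).pow 2
    have h2 : (m : ℤ) ∣ (z ^ 2) ^ 2 - (z ^ 2 % (m : ℤ)) ^ 2 := Int.modEq_iff_dvd.mp h1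
    have h3 : (z ^ 2 % (m : ℤ)) ^ 2 - A = (z ^ 4 - A) - ((z ^ 2) ^ 2 - (z ^ 2 % (m : ℤ)) ^ 2) := by ring
    rw [h3]
    exact dvd_sub hz2 h2
  have h := Finset.card_le_mul_card_image_of_maps_to (f := fun z => z ^ 2 % (m : ℤ)) (s := S) (t := U)
    hmaps (3 * m.divisors.card) (by
      intro μ hμ
      have hμ' := Finset.mem_filter.mp hμ
      have hμcop : IsCoprime (m : ℤ) μ := by
        obtain ⟨t, ht⟩ := hμ'.2
        have h1 : IsCoprime (m : ℤ) (μ ^ 2) := by
          have : μ ^ 2 = A + m * t := by linarith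
          rw [this]
          exact hA.add_mul_left_right t
        exact (IsCoprime.pow_right_iff two_pos).mp h1
      have hle := card_square_roots hm hμcop
      have hsub : S.filter (fun z => z ^ 2 % (m : ℤ) = μ) ⊆
          (Finset.Ico (0 : ℤ) m).filter (fun z => (m : ℤ) ∣ z ^ 2 - μ) := by
        intro z hz
        have hz' := Finset.mem_filter.mp hz
        rw [Finset.mem_filter]
        refine ⟨(Finset.mem_filter.mp hz'.1).1, ?_⟩
        rw [← hz'.2]
        exact Int.dvd_self_sub_emod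
      have h2 := Finset.card_le_card hsub
      have h3 : ((Finset.Ico (0 : ℤ) m).filter (fun z => (m : ℤ) ∣ z ^ 2 - μ)).card ≤ 3 * m.divisors.card := by
        exact_mod_cast hle
      exact h2.trans h3)
  have hU' := card_square_roots hm hA
  rw [← hU] at hU'
  calc (S.card : ℝ) ≤ ((3 * m.divisors.card * U.card : ℕ) : ℝ) := by exact_mod_cast h
    _ = (3 * m.divisors.card : ℝ) * U.card := by push_cast; ring
    _ ≤ (3 * m.divisors.card : ℝ) * (3 * m.divisors.card) :=
        mul_le_mul_of_nonneg_left hU' (by positivity)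
    _ = _ := by ring

lemma card_e_le {m n : ℕ} (hm : 0 < m) (hn : 0 < n) (hmn : IsCoprime (m : ℤ) (n : ℤ)) (A e0 : ℤ)
    {E R : ℝ} (hE : 0 ≤ E)
    (hR : (((Finset.Ico (0 : ℤ) n).filter (fun z => (n : ℤ) ∣ 3 * z ^ 2 + A)).card : ℝ) ≤ R)
    {S : Finset ℤ} (hS : ∀ e ∈ S, (m : ℤ) ∣ e - e0 ∧ (n : ℤ) ∣ 3 * e ^ 2 + A ∧ |(e : ℝ)| ≤ E) :
    (S.card : ℝ) ≤ R * (1 + 2 * E / (m * n)) := by
  classical
  have hmZ : (0 : ℤ) < m := by exact_mod_cast hm
  have hnZ : (0 : ℤ) < n := by exact_mod_cast hn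
  set U := (Finset.Ico (0 : ℤ) n).filter (fun z => (n : ℤ) ∣ 3 * z ^ 2 + A) with hU
  have hmaps : ∀ z ∈ S, (z % (n : ℤ)) ∈ U := by
    intro z hz
    obtain ⟨_, h2, _⟩ := hS z hz
    rw [hU, Finset.mem_filter, Finset.mem_Ico]
    refine ⟨⟨Int.emod_nonneg _ hnZ.ne', Int.emod_lt_of_pos _ hnZ⟩, ?_⟩
    have h1 : 3 * (z % (n : ℤ)) ^ 2 ≡ 3 * z ^ 2 [ZMOD n] := ((Int.mod_modEq _ _).pow 2).mul_left 3
    have h2' : (n : ℤ) ∣ 3 * z ^ 2 - 3 * (z % (n : ℤ)) ^ 2 := Int.modEq_iff_dvd.mp h1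
    have h3 : 3 * (z % (n : ℤ)) ^ 2 + A = (3 * z ^ 2 + A) - (3 * z ^ 2 - 3 * (z % (n : ℤ)) ^ 2) := by ring
    rw [h3]
    exact dvd_sub h2 h2'
  rw [Finset.card_eq_sum_card_fiberwise (f := fun z => z % (n : ℤ)) (t := U)
    (by intro z hz; exact hmaps z hz)]
  push_cast
  have hmR : (0 : ℝ) < m := by exact_mod_cast hm
  have hnR : (0 : ℝ) < n := by exact_mod_cast hn
  calc ∑ u ∈ U, ((S.filter (fun z => z % (n : ℤ) = u)).card : ℝ)
      ≤ ∑ u ∈ U, (1 + 2 * E / (m * n)) := by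
        apply Finset.sum_le_sum
        intro u _
        have := card_le_of_dvd_sub (S := S.filter (fun z => z % (n : ℤ) = u)) (m := (m * n : ℤ))
          (by positivity) (L := 2 * E) (by positivity)
          (by
            intro x hx y hy
            have hx' := Finset.mem_filter.mp hx
            have hy' := Finset.mem_filter.mp hy
            have h1 : (m : ℤ) ∣ x - y := by
              have := dvd_sub (hS x hx'.1).1 (hS y hy'.1).1
              have e : x - e0 - (y - e0) = x - y := by ring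
              rwa [e] at this
            have h2 : (n : ℤ) ∣ x - y := by
              apply Int.modEq_iff_dvd.mp
              show y % n = x % n
              rw [hx'.2, hy'.2]
            exact hmn.mul_dvd h1 h2)
          (by
            intro x hx y hy
            have hx' := (hS x (Finset.mem_filter.mp hx).1).2.2
            have hy' := (hS y (Finset.mem_filter.mp hy).1).2.2
            have := abs_le.mp hx'
            have := abs_le.mp hy'
            linarith)
        push_cast at this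
        linarith
    _ = U.card * (1 + 2 * E / (m * n)) := by rw [Finset.sum_const, nsmul_eq_mul]
    _ ≤ R * (1 + 2 * E / (m * n)) := mul_le_mul_of_nonneg_right hR (by positivity)

end Pool.Agent.Helper13.Hall
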