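import Mathlib
import Pool.Agent.Helper13.Hall.Fixed

/-! # The count for a fixed denominator `v`, continued -/

namespace Pool.Agent.Helper13.Hall

open Finset

lemma root_count_le {n : ℕ} (hn : 0 < n) {A : ℤ} (hA : A ≠ 0) {τ : ℝ} (hτ : (n.divisors.card : ℝ) ≤ τ) :
    (((Finset.Ico (0 : ℤ) n).filter (fun z => (n : ℤ) ∣ 3 * z ^ 2 + A)).card : ℝ)
      ≤ 4 * τ * sqF A.natAbs := by
  have hA' : A.natAbs ≠ 0 := Int.natAbs_ne_zero.mpr hA
  have h := card_roots_le (m := n) hn (a := 3) (A := A) (by norm_num) (H := sqF A.natAbs) (by positivity) (by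
    intro h _ hd
    have h1 : h ^ 2 ∣ 12 * A.natAbs := by
      have h2 := Int.natAbs_dvd_natAbs.mpr hd
      rw [Int.natAbs_pow, Int.natAbs_mul] at h2
      norm_num at h2
      exact h2
    exact_mod_cast le_sqF hA' h1)
  have h1 : (1 : ℝ) ≤ sqF A.natAbs := by exact_mod_cast one_le_sqF hA'
  refine h.trans ?_
  push_cast
  calc (n.divisors.card : ℝ) * (3 * sqF A.natAbs + 1) ≤ τ * (3 * sqF A.natAbs + 1) :=
        mul_le_mul_of_nonneg_right hτ (by positivity)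
    _ ≤ τ * (4 * sqF A.natAbs) := by
        apply mul_le_mul_of_nonneg_left (by linarith)
        exact le_trans (by positivity) hτ
    _ = _ := by ring

/-- the nonzero integers of absolute value at most `a` -/
noncomputable def nzInt (a : ℝ) : Finset ℤ := (Finset.Icc (-(⌊a⌋₊ : ℤ)) ⌊a⌋₊).filter (fun A => A ≠ 0)

lemma mem_nzInt {a : ℝ} {A : ℤ} (h0 : A ≠ 0) (hA : |(A : ℝ)| ≤ a) : A ∈ nzInt a := by
  unfold nzInt
  have h1 : A.natAbs ≤ ⌊a⌋₊ := by
    apply Nat.le_floor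
    rw [Nat.cast_natAbs]
    push_cast
    exact hA
  rw [Finset.mem_filter, Finset.mem_Icc]
  refine ⟨⟨by omega, by omega⟩, h0⟩

lemma abs_le_of_mem_nzInt {a : ℝ} (ha : 0 ≤ a) {A : ℤ} (hA : A ∈ nzInt a) : A ≠ 0 ∧ |(A : ℝ)| ≤ a := by
  unfold nzInt at hA
  rw [Finset.mem_filter, Finset.mem_Icc] at hA
  refine ⟨hA.2, ?_⟩
  have h1 : A.natAbs ≤ ⌊a⌋₊ := by omega
  have h2 : ((A.natAbs : ℕ) : ℝ) ≤ (⌊a⌋₊ : ℝ) := by exact_mod_cast h1
  rw [Nat.cast_natAbs] at h2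
  push_cast at h2
  exact h2.trans (Nat.floor_le ha)

lemma sum_nzInt_sqF {a : ℝ} (ha : 0 ≤ a) :
    ∑ A ∈ nzInt a, (sqF A.natAbs : ℝ) ≤ 24 * a * (1 + Real.log (12 * (a + 1))) := by
  classical
  set a' := ⌊a⌋₊ with ha'
  have hfl : (a' : ℝ) ≤ a := Nat.floor_le ha
  have hsub : nzInt a ⊆ (Finset.Icc 1 a').image (fun n : ℕ => (n : ℤ)) ∪
      (Finset.Icc 1 a').image (fun n : ℕ => -(n : ℤ)) := by
    intro A hA
    unfold nzInt at hA
    rw [Finset.mem_filter, Finset.mem_Icc] at hA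
    rw [Finset.mem_union, Finset.mem_image, Finset.mem_image]
    rcases lt_or_gt_of_ne hA.2 with hneg | hpos
    · right
      refine ⟨A.natAbs, ?_, by omega⟩
      rw [Finset.mem_Icc]; omega
    · left
      refine ⟨A.natAbs, ?_, by omega⟩
      rw [Finset.mem_Icc]; omega
  have h1 : ∑ A ∈ nzInt a, (sqF A.natAbs : ℝ) ≤
      ∑ n ∈ Finset.Icc 1 a', (sqF n : ℝ) + ∑ n ∈ Finset.Icc 1 a', (sqF n : ℝ) := by
    calc ∑ A ∈ nzInt a, (sqF A.natAbs : ℝ) ≤ ∑ A ∈ (Finset.Icc 1 a').image (fun n : ℕ => (n : ℤ)) ∪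
            (Finset.Icc 1 a').image (fun n : ℕ => -(n : ℤ)), (sqF A.natAbs : ℝ) :=
          Finset.sum_le_sum_of_subset_of_nonneg hsub (by intro i _ _; positivity)
      _ ≤ ∑ A ∈ (Finset.Icc 1 a').image (fun n : ℕ => (n : ℤ)), (sqF A.natAbs : ℝ) +
            ∑ A ∈ (Finset.Icc 1 a').image (fun n : ℕ => -(n : ℤ)), (sqF A.natAbs : ℝ) := by
          rw [← Finset.sum_union_inter]
          have : 0 ≤ ∑ A ∈ (Finset.Icc 1 a').image (fun n : ℕ => (n : ℤ)) ∩
            (Finset.Icc 1 a').image (fun n : ℕ => -(n : ℤ)), (sqF A.natAbs : ℝ) :=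
              Finset.sum_nonneg (by intro i _; positivity)
          linarith
      _ = _ := by
          rw [Finset.sum_image (by intro x _ y _ hxy; simpa using hxy),
            Finset.sum_image (by intro x _ y _ hxy; simpa using hxy)]
          simp
  rcases Nat.eq_zero_or_pos a' with h0 | hpos
  · rw [h0] at h1
    simp at h1
    refine h1.trans ?_
    have hlog : 0 ≤ Real.log (12 * (a + 1)) := Real.log_nonneg (by linarith)
    positivity
  · have h2 := sum_sqF_le a'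
    have h3 : 12 * (a' : ℝ) * (1 + Real.log (12 * a')) ≤ 12 * a * (1 + Real.log (12 * (a + 1))) := by
      have hposR : (1 : ℝ) ≤ a' := by exact_mod_cast hpos
      have hl : Real.log (12 * a') ≤ Real.log (12 * (a + 1)) :=
        Real.log_le_log (by linarith) (by linarith)
      have hl0 : 0 ≤ Real.log (12 * a') := Real.log_nonneg (by linarith)
      apply mul_le_mul (by linarith) (by linarith) (by linarith) (by linarith)
    linarith

lemma nzInt_class_sum {m : ℕ} (hm : 0 < m) {K c : ℝ} (hK : 0 ≤ K) (hc : 0 ≤ c) (κ : ℤ) :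
    ∑ k ∈ (nzInt K).filter (fun k => (m : ℤ) ∣ k - κ), (1 + c / Real.sqrt |(k : ℝ)|)
      ≤ 2 * K / m + 1 + c * (2 + 4 * Real.sqrt K / m) := by
  set S := (nzInt K).filter (fun k => (m : ℤ) ∣ k - κ) with hS
  have hcl : ∀ a ∈ S, ∀ b ∈ S, (m : ℤ) ∣ a - b := by
    intro a ha b hb
    have := dvd_sub (Finset.mem_filter.mp ha).2 (Finset.mem_filter.mp hb).2
    have e : a - κ - (b - κ) = a - b := by ring
    rwa [e] at this
  have hab : ∀ a ∈ S, a ≠ 0 ∧ |(a : ℝ)| ≤ K := by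
    intro a ha
    exact abs_le_of_mem_nzInt hK (Finset.mem_filter.mp ha).1
  have h1 : (S.card : ℝ) ≤ 2 * K / m + 1 := by
    have := card_le_of_dvd_sub (S := S) (m := (m : ℤ)) (by exact_mod_cast hm) (L := 2 * K) (by positivity) hcl
      (by
        intro x hx y hy
        have h1 := abs_le.mp (hab x hx).2
        have h2 := abs_le.mp (hab y hy).2
        linarith)
    exact_mod_cast this
  have h2 := sum_inv_sqrt_class (S := S) hm hK hcl hab
  rw [Finset.sum_add_distrib]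
  rw [Finset.sum_const, nsmul_eq_mul, mul_one]
  have h3 : ∑ k ∈ S, c / Real.sqrt |(k : ℝ)| = c * ∑ k ∈ S, 1 / Real.sqrt |(k : ℝ)| := by
    rw [Finset.mul_sum]
    apply Finset.sum_congr rfl
    intro k _
    ring
  rw [h3]
  exact add_le_add h1 (mul_le_mul_of_nonneg_left h2 hc)

lemma fixed_count {v : ℕ} (hv : 0 < v) {a K B τ : ℝ} (ha : 0 ≤ a) (hK : 0 ≤ K) (hB : 0 ≤ B) (hτ : 1 ≤ τ)
    (hτv : ((v ^ 2).divisors.card : ℝ) ≤ τ)
    (hτk : ∀ n : ℕ, 0 < n → (n : ℝ) ≤ K → (n.divisors.card : ℝ) ≤ τ)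
    {W : Finset (ℤ × ℤ × ℤ)}
    (hW : ∀ w ∈ W, w.1 ≠ 0 ∧ |(w.1 : ℝ)| ≤ a ∧ w.2.1 ≠ 0 ∧ |(w.2.1 : ℝ)| ≤ K ∧
      w.2.1 ∣ 3 * w.2.2 ^ 2 + w.1 ∧ (w.2.2 : ℝ) ^ 2 ≤ B * |(w.2.1 : ℝ)| ∧
      ∃ ν : ℤ, IsCoprime ν (v : ℤ) ∧ (v : ℤ) ^ 2 ∣ w.1 - ν ^ 4 ∧ (v : ℤ) ^ 2 ∣ w.2.1 - ν ^ 3 ∧
        (v : ℤ) ^ 2 ∣ w.2.2 - ν ^ 2) :
    (W.card : ℝ) ≤ (24 * a * (1 + Real.log (12 * (a + 1)))) *
      (36 * τ ^ 3 * (2 * K / (v : ℝ) ^ 2 + 1 +
        2 * Real.sqrt B / (v : ℝ) ^ 2 * (2 + 4 * Real.sqrt K / (v : ℝ) ^ 2))) := by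
  classical
  set m : ℕ := v ^ 2 with hm_def
  have hm : 0 < m := by positivity
  have hmZ : (0 : ℤ) < m := by exact_mod_cast hm
  have hmv : ((v : ℤ) ^ 2) = (m : ℤ) := by rw [hm_def]; push_cast; rfl
  have hmvR : ((v : ℝ) ^ 2) = (m : ℝ) := by rw [hm_def]; push_cast; rfl
  have hmR : (0 : ℝ) < m := by exact_mod_cast hm
  rw [hmv] at hW
  rw [hmvR]
  let Rt : ℤ → Finset ℤ := fun A => (Finset.Ico (0 : ℤ) m).filter (fun ν => (m : ℤ) ∣ ν ^ 4 - A ∧ IsCoprime ν (v : ℤ))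
  let Ks : ℤ → Finset ℤ := fun ν => (nzInt K).filter (fun k => (m : ℤ) ∣ k - ν ^ 3)
  let Es : ℤ → ℤ → ℤ → Finset ℤ := fun A ν k =>
    (W.filter (fun w => w.1 = A ∧ w.2.1 = k ∧ (m : ℤ) ∣ w.2.2 - ν ^ 2)).image (fun w => w.2.2)
  have hsub : W ⊆ (nzInt a).biUnion (fun A => (Rt A).biUnion (fun ν => (Ks ν).biUnion (fun k =>
      (Es A ν k).image (fun e => (A, k, e))))) := by
    intro w hw
    obtain ⟨h1, h2, h3, h4, h5, h6, ν, h7, h8, h9, h10⟩ := hW w hw
    have hνmod : (ν % m) ≡ ν [ZMOD m] := Int.mod_modEq _ _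
    have hpow : ∀ j : ℕ, (m : ℤ) ∣ ν ^ j - (ν % m) ^ j := fun j => Int.modEq_iff_dvd.mp (hνmod.pow j)
    rw [Finset.mem_biUnion]
    refine ⟨w.1, mem_nzInt h1 h2, ?_⟩
    rw [Finset.mem_biUnion]
    refine ⟨ν % m, ?_, ?_⟩
    · simp only [Rt]
      rw [Finset.mem_filter, Finset.mem_Ico]
      refine ⟨⟨Int.emod_nonneg _ hmZ.ne', Int.emod_lt_of_pos _ hmZ⟩, ?_, ?_⟩
      · have e : (ν % (m : ℤ)) ^ 4 - w.1 = -(ν ^ 4 - (ν % m) ^ 4) - (w.1 - ν ^ 4) := by ring
        rw [e]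
        exact dvd_sub (dvd_neg.mpr (hpow 4)) h8
      · have : ν % (m : ℤ) = ν + (v : ℤ) * (-(v : ℤ) * (ν / m)) := by
          rw [Int.emod_def, ← hmv]; ring
        rw [this]
        exact h7.add_mul_left_left _
    rw [Finset.mem_biUnion]
    refine ⟨w.2.1, ?_, ?_⟩
    · simp only [Ks]
      rw [Finset.mem_filter]
      refine ⟨mem_nzInt h3 h4, ?_⟩
      have e : w.2.1 - (ν % (m : ℤ)) ^ 3 = (w.2.1 - ν ^ 3) + (ν ^ 3 - (ν % m) ^ 3) := by ring
      rw [e]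
      exact dvd_add h9 (hpow 3)
    rw [Finset.mem_image]
    refine ⟨w.2.2, ?_, rfl⟩
    simp only [Es]
    rw [Finset.mem_image]
    refine ⟨w, ?_, rfl⟩
    rw [Finset.mem_filter]
    refine ⟨hw, rfl, rfl, ?_⟩
    have e : w.2.2 - (ν % (m : ℤ)) ^ 2 = (w.2.2 - ν ^ 2) + (ν ^ 2 - (ν % m) ^ 2) := by ring
    rw [e]
    exact dvd_add h10 (hpow 2)
  set c : ℝ := 2 * Real.sqrt B / m with hc
  have hc0 : 0 ≤ c := by positivity
  set G : ℝ := 2 * K / m + 1 + c * (2 + 4 * Real.sqrt K / m) with hG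
  have hG0 : 0 ≤ G := by positivity
  have hτ0 : 0 ≤ τ := by linarith
  -- the innermost bound
  have hEs : ∀ A ∈ nzInt a, ∀ ν ∈ Rt A, ∀ k ∈ Ks ν, ((Es A ν k).card : ℝ) ≤
      4 * τ * sqF A.natAbs * (1 + c / Real.sqrt |(k : ℝ)|) := by
    intro A hA ν hν k hk
    have hν' := Finset.mem_filter.mp hν
    have hk' := Finset.mem_filter.mp hk
    obtain ⟨hk0, hkK⟩ := abs_le_of_mem_nzInt hK hk'.1
    have hn : 0 < k.natAbs := Int.natAbs_pos.mpr hk0
    have hnK : ((k.natAbs : ℕ) : ℝ) = |(k : ℝ)| := by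
      rw [Nat.cast_natAbs]; push_cast; rfl
    have hcop : IsCoprime (m : ℤ) ((k.natAbs : ℕ) : ℤ) := by
      have hkν : IsCoprime k (v : ℤ) := by
        obtain ⟨t, ht⟩ := hk'.2
        have : k = ν ^ 3 + (v : ℤ) * ((v : ℤ) * t) := by
          have : k = ν ^ 3 + m * t := by linarith
          rw [this, ← hmv]; ring
        rw [this]
        exact (hν'.2.2.pow_left).add_mul_left_left _
      have h1 : IsCoprime (m : ℤ) k := by
        rw [← hmv]
        exact hkν.symm.pow_left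
      rw [Int.natCast_natAbs]
      exact h1.abs_right
    have hR := root_count_le hn (abs_le_of_mem_nzInt ha hA).1 (hτk k.natAbs hn (by rw [hnK]; exact hkK))
    have hE : 0 ≤ Real.sqrt (B * |(k : ℝ)|) := Real.sqrt_nonneg _
    have := card_e_le hm hn hcop A (ν ^ 2) hE hR (S := Es A ν k) (by
      intro e he
      simp only [Es] at he
      rw [Finset.mem_image] at he
      obtain ⟨w, hw, rfl⟩ := he
      rw [Finset.mem_filter] at hw
      obtain ⟨hwW, hwA, hwk, hwd⟩ := hw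
      obtain ⟨h1, h2, h3, h4, h5, h6, _⟩ := hW w hwW
      refine ⟨hwd, ?_, ?_⟩
      · rw [hwk, hwA] at h5
        rw [Int.natCast_natAbs]
        exact (abs_dvd _ _).mpr h5
      · apply Real.abs_le_sqrt
        rw [← hwk]; exact h6)
    refine this.trans (le_of_eq ?_)
    congr 1
    rw [hnK, hc, Real.sqrt_mul hB]
    have hkpos : 0 < |(k : ℝ)| := by
      rw [← hnK]; exact_mod_cast hn
    have hs : Real.sqrt |(k : ℝ)| * Real.sqrt |(k : ℝ)| = |(k : ℝ)| := Real.mul_self_sqrt hkpos.le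
    have hs0 : 0 < Real.sqrt |(k : ℝ)| := Real.sqrt_pos.mpr hkpos
    congr 1
    rw [div_div, div_eq_div_iff (by positivity) (by positivity)]
    calc 2 * (Real.sqrt B * Real.sqrt |(k : ℝ)|) * (m * Real.sqrt |(k : ℝ)|)
        = 2 * Real.sqrt B * m * (Real.sqrt |(k : ℝ)| * Real.sqrt |(k : ℝ)|) := by ring
      _ = _ := by rw [hs]; ring
  have hRt : ∀ A : ℤ, ((Rt A).card : ℝ) ≤ 9 * τ ^ 2 := by
    intro A
    rcases (Rt A).eq_empty_or_nonempty with he | ⟨ν, hν⟩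
    · rw [he]; simp; positivity
    · have hν' := Finset.mem_filter.mp hν
      have hcop : IsCoprime (m : ℤ) A := by
        obtain ⟨t, ht⟩ := hν'.2.1
        have e : A = ν ^ 4 + (m : ℤ) * (-t) := by linarith
        rw [e]
        apply IsCoprime.add_mul_left_right
        rw [← hmv]
        exact (hν'.2.2.symm.pow_left).pow_right
      have h1 := card_quartic_roots hm hcop
      have h2 : (Rt A).card ≤ ((Finset.Ico (0 : ℤ) m).filter (fun z => (m : ℤ) ∣ z ^ 4 - A)).card := by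
        apply Finset.card_le_card
        intro z hz
        have hz' := Finset.mem_filter.mp hz
        rw [Finset.mem_filter]
        exact ⟨hz'.1, hz'.2.1⟩
      have h3 : ((Rt A).card : ℝ) ≤ 9 * (m.divisors.card : ℝ) ^ 2 := le_trans (by exact_mod_cast h2) h1
      have h4 : (m.divisors.card : ℝ) ^ 2 ≤ τ ^ 2 := pow_le_pow_left₀ (by positivity) hτv 2
      linarith
  calc (W.card : ℝ) ≤ ∑ A ∈ nzInt a, ∑ ν ∈ Rt A, ∑ k ∈ Ks ν, ((Es A ν k).card : ℝ) := by
        have h1 := Finset.card_le_card hsub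
        have h2 : ((nzInt a).biUnion (fun A => (Rt A).biUnion (fun ν => (Ks ν).biUnion (fun k =>
            (Es A ν k).image (fun e => (A, k, e)))))).card ≤
            ∑ A ∈ nzInt a, ∑ ν ∈ Rt A, ∑ k ∈ Ks ν, (Es A ν k).card := by
          refine Finset.card_biUnion_le.trans (Finset.sum_le_sum fun A _ => ?_)
          refine Finset.card_biUnion_le.trans (Finset.sum_le_sum fun ν _ => ?_)
          refine Finset.card_biUnion_le.trans (Finset.sum_le_sum fun k _ => ?_)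
          exact Finset.card_image_le
        exact_mod_cast h1.trans h2
    _ ≤ ∑ A ∈ nzInt a, ∑ ν ∈ Rt A, 4 * τ * sqF A.natAbs * G := by
        apply Finset.sum_le_sum; intro A hA
        apply Finset.sum_le_sum; intro ν hν
        calc ∑ k ∈ Ks ν, ((Es A ν k).card : ℝ)
            ≤ ∑ k ∈ Ks ν, 4 * τ * sqF A.natAbs * (1 + c / Real.sqrt |(k : ℝ)|) :=
              Finset.sum_le_sum (fun k hk => hEs A hA ν hν k hk)
          _ = 4 * τ * sqF A.natAbs * ∑ k ∈ Ks ν, (1 + c / Real.sqrt |(k : ℝ)|) := by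
              rw [Finset.mul_sum]
          _ ≤ _ := by
              apply mul_le_mul_of_nonneg_left _ (by positivity)
              exact nzInt_class_sum hm hK hc0 (ν ^ 3)
    _ = ∑ A ∈ nzInt a, ((Rt A).card : ℝ) * (4 * τ * sqF A.natAbs * G) := by
        apply Finset.sum_congr rfl; intro A _
        rw [Finset.sum_const, nsmul_eq_mul]
    _ ≤ ∑ A ∈ nzInt a, (9 * τ ^ 2) * (4 * τ * sqF A.natAbs * G) := by
        apply Finset.sum_le_sum; intro A _
        exact mul_le_mul_of_nonneg_right (hRt A) (by positivity)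
    _ = (∑ A ∈ nzInt a, (sqF A.natAbs : ℝ)) * (36 * τ ^ 3 * G) := by
        rw [Finset.sum_mul]
        apply Finset.sum_congr rfl; intro A _
        ring
    _ ≤ (24 * a * (1 + Real.log (12 * (a + 1)))) * (36 * τ ^ 3 * G) := by
        apply mul_le_mul_of_nonneg_right (sum_nzInt_sqF ha) (by positivity)

end Pool.Agent.Helper13.Hall
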