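import Mathlib

/-! # Parametrisation of near-squares of cubes by rational approximations to `√x` -/

namespace Pool.Agent.Helper13.Hall

/-- the algebraic identity behind everything -/
lemma main_identity (x y v N : ℤ) :
    8 * (y ^ 2 - x ^ 3) * v ^ 6 =
      2 * (4 * N * (N ^ 3 - 3 * x * N * v ^ 2 + 2 * y * v ^ 3) - 3 * (N ^ 2 - x * v ^ 2) ^ 2) * N ^ 2
      + 2 * (N ^ 3 - 3 * x * N * v ^ 2 + 2 * y * v ^ 3) ^ 2 - (N ^ 2 - x * v ^ 2) ^ 3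
      - 3 * (N ^ 2 - x * v ^ 2) *
        (4 * N * (N ^ 3 - 3 * x * N * v ^ 2 + 2 * y * v ^ 3) - 3 * (N ^ 2 - x * v ^ 2) ^ 2) := by
  ring

/-- Dirichlet approximation in the form needed. -/
lemma dirichlet (s u : ℝ) (hu : 0 < u) (hu1 : u ≤ 1) :
    ∃ N v : ℤ, 1 ≤ v ∧ (v : ℝ) * u ≤ 1 ∧ IsCoprime N v ∧ |(N : ℝ) - s * v| ≤ u := by
  have hQ : 1 ≤ 1 / u := by rw [le_div_iff₀ hu]; linarith
  have hn : 0 < ⌊1 / u⌋₊ := Nat.floor_pos.mpr hQ
  obtain ⟨q, hq1, hq2⟩ := Real.exists_rat_abs_sub_le_and_den_le s hn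
  have hden : (0 : ℝ) < q.den := by exact_mod_cast q.den_pos
  refine ⟨q.num, q.den, by exact_mod_cast q.den_pos, ?_, ?_, ?_⟩
  · have h1 : ((q.den : ℕ) : ℝ) ≤ ⌊1 / u⌋₊ := by exact_mod_cast hq2
    have h2 := Nat.floor_le (show 0 ≤ 1 / u by positivity)
    have h3 : ((q.den : ℕ) : ℝ) ≤ 1 / u := h1.trans h2
    rw [le_div_iff₀ hu] at h3
    exact_mod_cast h3
  · exact Rat.isCoprime_num_den q
  · have h1 : (1 : ℝ) / u < ⌊1 / u⌋₊ + 1 := Nat.lt_floor_add_one _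
    have h2 : (q : ℝ) = q.num / q.den := by
      conv_lhs => rw [← Rat.num_div_den q]
      push_cast
      rfl
    have h3 : ((q.num : ℤ) : ℝ) - s * ((q.den : ℤ) : ℝ) = -((s - q) * q.den) := by
      rw [h2]
      push_cast
      field_simp
      ring
    rw [h3, abs_neg, abs_mul, abs_of_pos hden]
    have h4 : |s - (q : ℝ)| * q.den ≤ 1 / ((⌊1 / u⌋₊ + 1) * q.den) * q.den :=
      mul_le_mul_of_nonneg_right hq1 hden.le
    have h5 : 1 / (((⌊1 / u⌋₊ : ℝ) + 1) * q.den) * q.den = 1 / ((⌊1 / u⌋₊ : ℝ) + 1) := by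
      field_simp
    rw [h5] at h4
    refine h4.trans ?_
    rw [div_le_iff₀ (by positivity)]
    rw [div_lt_iff₀ hu] at h1
    nlinarith

/-- the sizes -/
lemma sizes {T u D x y s N v : ℝ} (hT : 20 ≤ T) (hu : 0 < u) (hu1 : u ≤ 1)
    (hD : D ≤ 4 * T ^ 3 * u ^ 6) (hs : T ≤ s) (hs2 : s ≤ 1.42 * T) (hx : x = s ^ 2) (hy : 0 < y)
    (hd : |y ^ 2 - x ^ 3| ≤ D) (hv : 1 ≤ v) (hvu : v * u ≤ 1) (hN : |N - s * v| ≤ u) :
    T * v - 1 ≤ N ∧ N ≤ 3 * T * v ∧ |N ^ 2 - x * v ^ 2| ≤ 5 * T * v * u ∧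
    |N ^ 3 - 3 * x * N * v ^ 2 + 2 * y * v ^ 3| ≤ 14 * T * v * u ^ 2 ∧
    |4 * N * (N ^ 3 - 3 * x * N * v ^ 2 + 2 * y * v ^ 3) - 3 * (N ^ 2 - x * v ^ 2) ^ 2|
      ≤ 100 * T * v * u ^ 3 := by
  obtain ⟨δ, hδ⟩ : ∃ δ, N = s * v + δ := ⟨N - s * v, by ring⟩
  obtain ⟨η, hη⟩ : ∃ η, y = s ^ 3 + η := ⟨y - s ^ 3, by ring⟩
  have hδu : |δ| ≤ u := by
    have : N - s * v = δ := by rw [hδ]; ring
    rwa [this] at hN
  have hT0 : 0 < T := by linarith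
  have hs0 : 0 < s := by linarith
  have hTv : 20 ≤ T * v := by nlinarith
  have hTsv : T * v ≤ s * v := mul_le_mul_of_nonneg_right hs (by linarith)
  have hsv : s * v ≤ 1.42 * T * v := mul_le_mul_of_nonneg_right hs2 (by linarith)
  obtain ⟨hδ1, hδ2⟩ := abs_le.mp hδu
  -- bound for η
  have hηb : |η| ≤ 4 * u ^ 6 := by
    have h1 : y ^ 2 - x ^ 3 = η * (y + s ^ 3) := by rw [hx, hη]; ring
    rw [h1, abs_mul, abs_of_pos (show 0 < y + s ^ 3 by positivity)] at hd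
    have h2 : |η| * T ^ 3 ≤ |η| * (y + s ^ 3) := by
      apply mul_le_mul_of_nonneg_left _ (abs_nonneg _)
      have : T ^ 3 ≤ s ^ 3 := pow_le_pow_left₀ hT0.le hs 3
      linarith
    have h3 : |η| * T ^ 3 ≤ (4 * u ^ 6) * T ^ 3 := by
      calc |η| * T ^ 3 ≤ D := h2.trans hd
        _ ≤ _ := by linarith
    exact le_of_mul_le_mul_right h3 (by positivity)
  have hηv : |η * v ^ 3| ≤ 4 * u ^ 3 := by
    rw [abs_mul, abs_of_pos (show 0 < v ^ 3 by positivity)]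
    calc |η| * v ^ 3 ≤ (4 * u ^ 6) * v ^ 3 := mul_le_mul_of_nonneg_right hηb (by positivity)
      _ = 4 * u ^ 3 * (v * u) ^ 3 := by ring
      _ ≤ 4 * u ^ 3 * 1 := by
          apply mul_le_mul_of_nonneg_left _ (by positivity)
          exact pow_le_one₀ (by positivity) hvu
      _ = 4 * u ^ 3 := by ring
  have hu2 : u ^ 2 ≤ 1 := pow_le_one₀ hu.le hu1
  have hu32 : u ^ 3 ≤ u ^ 2 := pow_le_pow_of_le_one hu.le hu1 (by norm_num)
  have hδ2b : δ ^ 2 ≤ u ^ 2 := by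
    rw [← sq_abs]; exact pow_le_pow_left₀ (abs_nonneg _) hδu 2
  have hδ3b : |δ ^ 3| ≤ u ^ 3 := by
    rw [abs_pow]; exact pow_le_pow_left₀ (abs_nonneg _) hδu 3
  have hN0 : T * v - 1 ≤ N := by rw [hδ]; linarith
  have hN3 : N ≤ 1.5 * T * v := by rw [hδ]; nlinarith
  have hNpos : 0 < N := by linarith
  refine ⟨hN0, by nlinarith, ?_, ?_, ?_⟩
  · have h1 : N ^ 2 - x * v ^ 2 = δ * (2 * (s * v) + δ) := by rw [hδ, hx]; ring
    rw [h1, abs_mul, abs_of_pos (show 0 < 2 * (s * v) + δ by linarith)]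
    calc |δ| * (2 * (s * v) + δ) ≤ u * (5 * (T * v)) := by
          apply mul_le_mul hδu (by linarith) (by linarith) hu.le
      _ = _ := by ring
  · have h1 : N ^ 3 - 3 * x * N * v ^ 2 + 2 * y * v ^ 3 = δ ^ 2 * (3 * (s * v) + δ) + 2 * (η * v ^ 3) := by
      rw [hδ, hx, hη]; ring
    rw [h1]
    refine (abs_add_le _ _).trans ?_
    rw [abs_mul, abs_of_nonneg (sq_nonneg δ), abs_of_pos (show 0 < 3 * (s * v) + δ by linarith),
      abs_mul, abs_of_pos (show (0 : ℝ) < 2 by norm_num)]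
    have h2 : δ ^ 2 * (3 * (s * v) + δ) ≤ u ^ 2 * (5 * (T * v)) :=
      mul_le_mul hδ2b (by linarith) (by linarith) (by positivity)
    have h3 : u ^ 2 * 20 ≤ u ^ 2 * (T * v) := mul_le_mul_of_nonneg_left hTv (by positivity)
    nlinarith
  · have h1 : 4 * N * (N ^ 3 - 3 * x * N * v ^ 2 + 2 * y * v ^ 3) - 3 * (N ^ 2 - x * v ^ 2) ^ 2
        = δ ^ 3 * (4 * (s * v) + δ) + 8 * N * (η * v ^ 3) := by
      rw [hδ, hx, hη]; ring
    rw [h1]
    refine (abs_add_le _ _).trans ?_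
    rw [abs_mul, abs_of_pos (show 0 < 4 * (s * v) + δ by linarith),
      abs_mul (8 * N), abs_of_pos (show 0 < 8 * N by linarith)]
    have h2 : |δ ^ 3| * (4 * (s * v) + δ) ≤ u ^ 3 * (6 * (T * v)) :=
      mul_le_mul hδ3b (by linarith) (by linarith) (by positivity)
    have h3 : 8 * N * |η * v ^ 3| ≤ (12 * (T * v)) * (4 * u ^ 3) :=
      mul_le_mul (by linarith) hηv (abs_nonneg _) (by positivity)
    have h4 : 0 ≤ u ^ 3 * (T * v) := by positivity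
    nlinarith

end Pool.Agent.Helper13.Hall
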