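import Mathlib
import Pool.Agent.Helper13.Hall.Param
import Pool.Agent.Helper13.Hall.FixedCount

/-! # The count in one dyadic block -/

namespace Pool.Agent.Helper13.Hall

open Finset

/-- `e`, `k`, `A` as functions of `x, y, N, v` -/
def eF (x v N : ℤ) : ℤ := N ^ 2 - x * v ^ 2
def kF (x y v N : ℤ) : ℤ := N ^ 3 - 3 * x * N * v ^ 2 + 2 * y * v ^ 3
def aF (x y v N : ℤ) : ℤ := 4 * N * kF x y v N - 3 * eF x v N ^ 2

lemma identityF (x y v N : ℤ) : 8 * (y ^ 2 - x ^ 3) * v ^ 6 =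
    2 * aF x y v N * N ^ 2 + 2 * kF x y v N ^ 2 - eF x v N ^ 3 - 3 * eF x v N * aF x y v N := by
  unfold aF kF eF; ring

lemma congrF_e (x v N : ℤ) : v ^ 2 ∣ eF x v N - N ^ 2 := ⟨-x, by unfold eF; ring⟩
lemma congrF_k (x y v N : ℤ) : v ^ 2 ∣ kF x y v N - N ^ 3 :=
  ⟨-3 * x * N + 2 * y * v, by unfold kF; ring⟩
lemma congrF_a (x y v N : ℤ) : v ^ 2 ∣ aF x y v N - N ^ 4 :=
  ⟨-6 * x * N ^ 2 + 8 * y * v * N - 3 * x ^ 2 * v ^ 2, by unfold aF kF eF; ring⟩

lemma injF {x y x' y' v N : ℤ} (hv : 1 ≤ v) (he : eF x v N = eF x' v N)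
    (hk : kF x y v N = kF x' y' v N) : x = x' ∧ y = y' := by
  have hv0 : v ≠ 0 := by omega
  have hx : x = x' := by
    unfold eF at he
    have : x * v ^ 2 = x' * v ^ 2 := by linarith
    exact mul_right_cancel₀ (pow_ne_zero 2 hv0) this
  refine ⟨hx, ?_⟩
  subst hx
  unfold kF at hk
  have : y * v ^ 3 = y' * v ^ 3 := by linarith
  exact mul_right_cancel₀ (pow_ne_zero 3 hv0) this

/-- the data attached to a point in a dyadic block -/
lemma exists_data {T u D : ℝ} (hT : 20 ≤ T) (hu : 0 < u) (hu1 : u ≤ 1)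
    (hD : D ≤ 4 * T ^ 3 * u ^ 6) {x y : ℤ} (hx1 : T ^ 2 ≤ x) (hx2 : (x : ℝ) < 2 * T ^ 2) (hy : 0 < y)
    (hd : |((y : ℝ) ^ 2 - (x : ℝ) ^ 3)| ≤ D) :
    ∃ N v : ℤ, 1 ≤ v ∧ (v : ℝ) * u ≤ 1 ∧ 1 ≤ N ∧ IsCoprime N v ∧
      T * v - 1 ≤ N ∧ (N : ℝ) ≤ 3 * T * v ∧ |(eF x v N : ℝ)| ≤ 5 * T * v * u ∧
      |(kF x y v N : ℝ)| ≤ 14 * T * v * u ^ 2 ∧ |(aF x y v N : ℝ)| ≤ 100 * T * v * u ^ 3 := by
  obtain ⟨N, v, hv1, hvu, hcop, hN⟩ := dirichlet (Real.sqrt x) u hu hu1
  have hT0 : 0 < T := by linarith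
  have hx0 : (0 : ℝ) ≤ x := le_trans (by positivity) hx1
  have hs : T ≤ Real.sqrt x := Real.le_sqrt_of_sq_le hx1
  have hs2 : Real.sqrt x ≤ 1.42 * T := by
    apply Real.sqrt_le_iff.mpr
    refine ⟨by positivity, ?_⟩
    nlinarith [sq_nonneg T]
  have hxs : (x : ℝ) = Real.sqrt x ^ 2 := (Real.sq_sqrt hx0).symm
  have hvR : (1 : ℝ) ≤ v := by exact_mod_cast hv1
  have hyR : (0 : ℝ) < y := by exact_mod_cast hy
  obtain ⟨h1, h2, h3, h4, h5⟩ := sizes hT hu hu1 hD hs hs2 hxs hyR hd hvR hvu hN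
  have hNpos : (0 : ℝ) < N := by nlinarith
  have hN1 : 1 ≤ N := by
    have : (0 : ℤ) < N := by exact_mod_cast hNpos
    omega
  refine ⟨N, v, hv1, hvu, hN1, hcop, h1, h2, ?_, ?_, ?_⟩
  · unfold eF; push_cast; exact h3
  · unfold kF; push_cast; exact h4
  · unfold aF kF eF; push_cast; exact h5

lemma v_eq_one_of_dvd {v N : ℤ} (hv : 1 ≤ v) (hcop : IsCoprime N v) (j : ℕ) (h : v ^ 2 ∣ N ^ j) : v = 1 := by
  have h1 : IsCoprime (N ^ j) (v ^ 2) := (hcop.pow_left).pow_right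
  have h2 : IsUnit (v ^ 2) := h1.isUnit_of_dvd' h dvd_rfl
  have h3 : IsUnit v := (isUnit_pow_iff two_ne_zero).mp h2
  rcases Int.isUnit_iff.mp h3 with h | h <;> omega

/-- the exceptional case `A ≠ 0`, `k = 0` -/
lemma e_small {T u D : ℝ} (hT : 20 ≤ T) (hu : 0 < u) (hu1 : u ≤ 1)
    (hD : D ≤ 4 * T ^ 3 * u ^ 6) {x y N : ℤ}
    (hd : |((y : ℝ) ^ 2 - (x : ℝ) ^ 3)| ≤ D) (hN : T - 1 ≤ N)
    (he : |(eF x 1 N : ℝ)| ≤ 5 * T * u) (hk : kF x y 1 N = 0) :
    |(eF x 1 N : ℝ)| ≤ 4 * Real.sqrt T * u ^ 3 := by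
  have hid := identityF x y 1 N
  have hA : aF x y 1 N = - 3 * eF x 1 N ^ 2 := by unfold aF; rw [hk]; ring
  rw [hA, hk] at hid
  set e := eF x 1 N with he_def
  have hidR : (8 : ℝ) * ((y : ℝ) ^ 2 - (x : ℝ) ^ 3) = - ((e : ℝ) ^ 2 * (6 * (N : ℝ) ^ 2 - 8 * e)) := by
    have : 8 * (y ^ 2 - x ^ 3) = - (e ^ 2 * (6 * N ^ 2 - 8 * e)) := by linarith
    exact_mod_cast this
  have he5 : (e : ℝ) ≤ 5 * T := by
    have h1 := (abs_le.mp he).2
    have h2 : 5 * T * u ≤ 5 * T * 1 := mul_le_mul_of_nonneg_left hu1 (by linarith)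
    linarith
  have hN2 : (T - 1) ^ 2 ≤ (N : ℝ) ^ 2 := pow_le_pow_left₀ (by linarith) hN 2
  have hlow : 3 * T ^ 2 ≤ 6 * (N : ℝ) ^ 2 - 8 * e := by nlinarith
  have h1 : (e : ℝ) ^ 2 * (3 * T ^ 2) ≤ 8 * (4 * T ^ 3 * u ^ 6) := by
    calc (e : ℝ) ^ 2 * (3 * T ^ 2) ≤ (e : ℝ) ^ 2 * (6 * (N : ℝ) ^ 2 - 8 * e) :=
          mul_le_mul_of_nonneg_left hlow (sq_nonneg _)
      _ ≤ |8 * ((y : ℝ) ^ 2 - (x : ℝ) ^ 3)| := by
          rw [hidR, abs_neg]; exact le_abs_self _
      _ = 8 * |((y : ℝ) ^ 2 - (x : ℝ) ^ 3)| := by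
          rw [abs_mul, abs_of_pos (show (0 : ℝ) < 8 by norm_num)]
      _ ≤ 8 * D := by linarith
      _ ≤ _ := by linarith
  have hT0 : 0 < T := by linarith
  have h2 : (e : ℝ) ^ 2 ≤ 16 * T * u ^ 6 := by
    have h3 : (e : ℝ) ^ 2 * (3 * T ^ 2) ≤ (16 * T * u ^ 6) * (3 * T ^ 2) := by
      have : 0 ≤ T ^ 3 * u ^ 6 := by positivity
      nlinarith
    exact le_of_mul_le_mul_right h3 (by positivity)
  apply abs_le_of_sq_le_sq _ (by positivity)
  rw [mul_pow, mul_pow, Real.sq_sqrt hT0.le]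
  calc (e : ℝ) ^ 2 ≤ 16 * T * u ^ 6 := h2
    _ = _ := by ring

/-- the bound for `e` in the main case -/
lemma e_main {T u : ℝ} (hT : 20 ≤ T) (hu : 0 < u) (hu1 : u ≤ 1) {N e k A v : ℤ}
    (hv : 1 ≤ v) (hN1 : 1 ≤ N) (hN : (N : ℝ) ≤ 3 * T * v) (hA : A = 4 * N * k - 3 * e ^ 2)
    (hk : k ≠ 0) (hAb : |(A : ℝ)| ≤ 100 * T * v * u ^ 3) :
    (e : ℝ) ^ 2 ≤ 40 * T * v * |(k : ℝ)| := by
  have hk1 : (1 : ℝ) ≤ |(k : ℝ)| := by
    have : 1 ≤ |k| := Int.one_le_abs hk
    exact_mod_cast this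
  have hvR : (1 : ℝ) ≤ v := by exact_mod_cast hv
  have hTv : 0 < T * v := by positivity
  have h3 : (3 : ℝ) * (e : ℝ) ^ 2 = 4 * N * k - A := by
    have : 3 * e ^ 2 = 4 * N * k - A := by linarith
    exact_mod_cast this
  have hN0 : (0 : ℝ) < N := by exact_mod_cast hN1
  have hu3 : u ^ 3 ≤ 1 := pow_le_one₀ hu.le hu1
  have h4 : |(A : ℝ)| ≤ 100 * (T * v) * |(k : ℝ)| := by
    calc |(A : ℝ)| ≤ 100 * (T * v) * u ^ 3 := by linarith
      _ ≤ 100 * (T * v) * |(k : ℝ)| := by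
          apply mul_le_mul_of_nonneg_left (hu3.trans hk1) (by positivity)
  have h5 : 4 * (N : ℝ) * k ≤ 12 * (T * v) * |(k : ℝ)| := by
    calc 4 * (N : ℝ) * k ≤ 4 * (N : ℝ) * |(k : ℝ)| :=
          mul_le_mul_of_nonneg_left (le_abs_self _) (by positivity)
      _ ≤ _ := by
          apply mul_le_mul_of_nonneg_right _ (abs_nonneg _)
          linarith
  have h6 := neg_abs_le (A : ℝ)
  have h7 : 0 ≤ (T * v) * |(k : ℝ)| := by positivity
  nlinarith

lemma card_nzInt_le {a : ℝ} (ha : 0 ≤ a) : ((nzInt a).card : ℝ) ≤ 2 * a := by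
  have h1 : (nzInt a).card ≤ 2 * ⌊a⌋₊ := by
    have h2 : nzInt a = (Finset.Icc (-(⌊a⌋₊ : ℤ)) ⌊a⌋₊).erase 0 := by
      unfold nzInt
      ext z
      simp only [Finset.mem_filter, Finset.mem_erase]
      tauto
    rw [h2, Finset.card_erase_of_mem (by rw [Finset.mem_Icc]; omega), Int.card_Icc]
    omega
  have h2 : ((nzInt a).card : ℝ) ≤ 2 * (⌊a⌋₊ : ℝ) := by exact_mod_cast h1
  have h3 := Nat.floor_le ha
  linarith

lemma block_count {T u D τ : ℝ} (hT : 20 ≤ T) (hu : 0 < u) (hu1 : u ≤ 1) (hD1 : 1 ≤ D)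
    (hD : D ≤ 4 * T ^ 3 * u ^ 6) (hτ1 : 1 ≤ τ)
    (hτ : ∀ n : ℕ, 0 < n → (n : ℝ) ≤ 75 * T ^ 2 → (n.divisors.card : ℝ) ≤ τ)
    {S : Finset (ℤ × ℤ)}
    (hS : ∀ p ∈ S, T ^ 2 ≤ (p.1 : ℝ) ∧ (p.1 : ℝ) < 2 * T ^ 2 ∧ 0 < p.2 ∧ p.2 ^ 2 ≠ p.1 ^ 3 ∧
      |((p.2 : ℝ) ^ 2 - (p.1 : ℝ) ^ 3)| ≤ D) :
    (S.card : ℝ) ≤ 10 * T * u * τ + 24 * T * Real.sqrt T * u ^ 3 +
      ∑ v ∈ Finset.Icc 1 ⌊1 / u⌋₊, (24 * (100 * T * v * u ^ 3) * (1 + Real.log (12 * (100 * T * v * u ^ 3 + 1)))) *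
      (36 * τ ^ 3 * (2 * (14 * T * v * u ^ 2) / (v : ℝ) ^ 2 + 1 +
        2 * Real.sqrt (40 * T * v) / (v : ℝ) ^ 2 * (2 + 4 * Real.sqrt (14 * T * v * u ^ 2) / (v : ℝ) ^ 2))) := by
  classical
  have hT0 : 0 < T := by linarith
  have hdat : ∀ p : ℤ × ℤ, ∃ q : ℤ × ℤ, p ∈ S → 1 ≤ q.2 ∧ (q.2 : ℝ) * u ≤ 1 ∧ 1 ≤ q.1 ∧ IsCoprime q.1 q.2 ∧
      T * q.2 - 1 ≤ q.1 ∧ (q.1 : ℝ) ≤ 3 * T * q.2 ∧ |(eF p.1 q.2 q.1 : ℝ)| ≤ 5 * T * q.2 * u ∧
      |(kF p.1 p.2 q.2 q.1 : ℝ)| ≤ 14 * T * q.2 * u ^ 2 ∧ |(aF p.1 p.2 q.2 q.1 : ℝ)| ≤ 100 * T * q.2 * u ^ 3 := by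
    intro p
    by_cases hp : p ∈ S
    · obtain ⟨h1, h2, h3, _, h5⟩ := hS p hp
      obtain ⟨N, v, h⟩ := exists_data hT hu hu1 hD h1 h2 h3 h5
      exact ⟨(N, v), fun _ => h⟩
    · exact ⟨(0, 0), fun h => absurd h hp⟩
  choose q hq using hdat
  set E : ℤ × ℤ → ℤ := fun p => eF p.1 (q p).2 (q p).1 with hE
  set K : ℤ × ℤ → ℤ := fun p => kF p.1 p.2 (q p).2 (q p).1 with hK
  set A : ℤ × ℤ → ℤ := fun p => aF p.1 p.2 (q p).2 (q p).1 with hA
  have hAdef : ∀ p, A p = 4 * (q p).1 * K p - 3 * E p ^ 2 := fun p => rfl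
  -- split
  set S1 := S.filter (fun p => A p = 0) with hS1
  set S2 := S.filter (fun p => A p ≠ 0 ∧ K p = 0) with hS2
  set S3 := S.filter (fun p => A p ≠ 0 ∧ K p ≠ 0) with hS3
  have hsplit : S ⊆ S1 ∪ (S2 ∪ S3) := by
    intro p hp
    rw [Finset.mem_union, Finset.mem_union, hS1, hS2, hS3, Finset.mem_filter, Finset.mem_filter,
      Finset.mem_filter]
    by_cases h1 : A p = 0
    · exact Or.inl ⟨hp, h1⟩
    · by_cases h2 : K p = 0
      · exact Or.inr (Or.inl ⟨hp, h1, h2⟩)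
      · exact Or.inr (Or.inr ⟨hp, h1, h2⟩)
  have hcard : (S.card : ℝ) ≤ S1.card + (S2.card + S3.card) := by
    have h1 := Finset.card_le_card hsplit
    have h2 := Finset.card_union_le S1 (S2 ∪ S3)
    have h3 := Finset.card_union_le S2 S3
    have : S.card ≤ S1.card + (S2.card + S3.card) := by omega
    exact_mod_cast this
  -- e ≠ 0 in the cases 1,2
  -- case 1
  have hS1card : (S1.card : ℝ) ≤ 10 * T * u * τ := by
    have hv1 : ∀ p ∈ S1, (q p).2 = 1 := by
      intro p hp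
      have hp' := Finset.mem_filter.mp hp
      obtain ⟨h1, h2, h3, h4, _⟩ := hq p hp'.1
      apply v_eq_one_of_dvd h1 h4 4
      have h5 := congrF_a p.1 p.2 (q p).2 (q p).1
      have h6 : aF p.1 p.2 (q p).2 (q p).1 = 0 := hp'.2
      rw [h6, zero_sub] at h5
      exact (dvd_neg.mp h5)
    have hmaps : ∀ p ∈ S1, (E p, (q p).1) ∈ (nzInt (5 * T * u)).biUnion
        (fun e => ((3 * e.natAbs ^ 2).divisors).image (fun n : ℕ => (e, (n : ℤ)))) := by
      intro p hp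
      have hp' := Finset.mem_filter.mp hp
      have hv := hv1 p hp
      obtain ⟨h1, h2, h3, h4, h5, h6, h7, h8, h9⟩ := hq p hp'.1
      have hne := (hS p hp'.1).2.2.2.1
      rw [Finset.mem_biUnion]
      have hA0 : 4 * (q p).1 * K p = 3 * E p ^ 2 := by
        have := hAdef p
        rw [hp'.2] at this
        linarith
      have he0 : E p ≠ 0 := by
        intro he
        rw [he] at hA0
        have hK0 : K p = 0 := by
          have : 4 * (q p).1 * K p = 0 := by rw [hA0]; ring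
          rcases mul_eq_zero.mp this with h | h
          · omega
          · exact h
        have hid := identityF p.1 p.2 (q p).2 (q p).1
        have e1 : eF p.1 (q p).2 (q p).1 = 0 := he
        have e2 : kF p.1 p.2 (q p).2 (q p).1 = 0 := hK0
        have e3 : aF p.1 p.2 (q p).2 (q p).1 = 0 := hp'.2
        rw [e1, e2, e3, hv] at hid
        apply hne
        linarith
      refine ⟨E p, mem_nzInt he0 ?_, ?_⟩
      · have : |(E p : ℝ)| ≤ 5 * T * (q p).2 * u := h7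
        rw [hv] at this
        simpa using this
      · rw [Finset.mem_image]
        refine ⟨(q p).1.natAbs, ?_, ?_⟩
        · rw [Nat.mem_divisors]
          refine ⟨?_, ?_⟩
          · have h10 : (q p).1 ∣ 3 * E p ^ 2 := ⟨4 * K p, by rw [← hA0]; ring⟩
            have h11 := Int.natAbs_dvd_natAbs.mpr h10
            rw [Int.natAbs_mul, Int.natAbs_pow] at h11
            exact h11
          · have : 0 < (E p).natAbs := Int.natAbs_pos.mpr he0
            positivity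
        · have : ((q p).1.natAbs : ℤ) = (q p).1 := by
            rw [Int.natCast_natAbs, abs_of_pos (by omega)]
          rw [this]
    have hinj : Set.InjOn (fun p => (E p, (q p).1)) (S1 : Set (ℤ × ℤ)) := by
      intro p hp p' hp' hpp
      have hp2 : p ∈ S1 := hp
      have hp2' : p' ∈ S1 := hp'
      simp only [Prod.mk.injEq] at hpp
      obtain ⟨hEE, hNN⟩ := hpp
      have hv := hv1 p hp2
      have hv' := hv1 p' hp2'
      have hpf := Finset.mem_filter.mp hp2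
      have hpf' := Finset.mem_filter.mp hp2'
      have hN1 := (hq p hpf.1).2.2.1
      have hKK : K p = K p' := by
        have a1 := hAdef p
        have a2 := hAdef p'
        rw [hpf.2] at a1
        rw [hpf'.2, ← hNN, ← hEE] at a2
        have : 4 * (q p).1 * K p = 4 * (q p).1 * K p' := by linarith
        exact mul_left_cancel₀ (by omega) this
      have h1 : eF p.1 1 (q p).1 = eF p'.1 1 (q p).1 := by
        have : eF p.1 (q p).2 (q p).1 = eF p'.1 (q p').2 (q p').1 := hEE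
        rw [hv, hv', ← hNN] at this
        exact this
      have h2 : kF p.1 p.2 1 (q p).1 = kF p'.1 p'.2 1 (q p).1 := by
        have : kF p.1 p.2 (q p).2 (q p).1 = kF p'.1 p'.2 (q p').2 (q p').1 := hKK
        rw [hv, hv', ← hNN] at this
        exact this
      obtain ⟨h3, h4⟩ := injF le_rfl h1 h2
      exact Prod.ext h3 h4
    have h1 := Finset.card_le_card_of_injOn _ hmaps hinj
    have h2 : ((nzInt (5 * T * u)).biUnion
        (fun e => ((3 * e.natAbs ^ 2).divisors).image (fun n : ℕ => (e, (n : ℤ))))).card ≤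
        ∑ e ∈ nzInt (5 * T * u), ((3 * e.natAbs ^ 2).divisors).card := by
      refine Finset.card_biUnion_le.trans (Finset.sum_le_sum fun e _ => Finset.card_image_le)
    calc (S1.card : ℝ) ≤ ∑ e ∈ nzInt (5 * T * u), (((3 * e.natAbs ^ 2).divisors).card : ℝ) := by
          exact_mod_cast h1.trans h2
      _ ≤ ∑ e ∈ nzInt (5 * T * u), τ := by
          apply Finset.sum_le_sum
          intro e he
          obtain ⟨he0, heb⟩ := abs_le_of_mem_nzInt (by positivity) he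
          apply hτ
          · have : 0 < e.natAbs := Int.natAbs_pos.mpr he0
            positivity
          · push_cast
            rw [Nat.cast_natAbs, Int.cast_abs, sq_abs]
            have h5 : |(e : ℝ)| ≤ 5 * T := by
              have : 5 * T * u ≤ 5 * T * 1 := mul_le_mul_of_nonneg_left hu1 (by linarith)
              linarith
            have h6 : (e : ℝ) ^ 2 ≤ (5 * T) ^ 2 := by
              rw [← sq_abs]; exact pow_le_pow_left₀ (abs_nonneg _) h5 2
            nlinarith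
      _ = (nzInt (5 * T * u)).card * τ := by rw [Finset.sum_const, nsmul_eq_mul]
      _ ≤ (2 * (5 * T * u)) * τ := by
          apply mul_le_mul_of_nonneg_right (card_nzInt_le (by positivity)) (by linarith)
      _ = _ := by ring
  -- case 2
  have hS2card : (S2.card : ℝ) ≤ 24 * T * Real.sqrt T * u ^ 3 := by
    have hv1 : ∀ p ∈ S2, (q p).2 = 1 := by
      intro p hp
      have hp' := Finset.mem_filter.mp hp
      obtain ⟨h1, h2, h3, h4, _⟩ := hq p hp'.1
      apply v_eq_one_of_dvd h1 h4 3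
      have h5 := congrF_k p.1 p.2 (q p).2 (q p).1
      have h6 : kF p.1 p.2 (q p).2 (q p).1 = 0 := hp'.2.2
      rw [h6, zero_sub] at h5
      exact (dvd_neg.mp h5)
    have hmaps : ∀ p ∈ S2, (E p, (q p).1) ∈ (nzInt (4 * Real.sqrt T * u ^ 3)) ×ˢ
        (Finset.Icc (1 : ℤ) ⌊3 * T⌋₊) := by
      intro p hp
      have hp' := Finset.mem_filter.mp hp
      have hv := hv1 p hp
      obtain ⟨h1, h2, h3, h4, h5, h6, h7, h8, h9⟩ := hq p hp'.1
      obtain ⟨g1, g2, g3, g4, g5⟩ := hS p hp'.1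
      rw [Finset.mem_product]
      have he0 : E p ≠ 0 := by
        intro he
        apply hp'.2.1
        rw [hAdef p, hp'.2.2, he]; ring
      refine ⟨mem_nzInt he0 ?_, ?_⟩
      · have hE1 : E p = eF p.1 1 (q p).1 := by
          show eF p.1 (q p).2 (q p).1 = _
          rw [hv]
        show |(E p : ℝ)| ≤ _
        rw [hE1]
        apply e_small hT hu hu1 hD (x := p.1) (y := p.2) g5
        · rw [hv] at h5; simpa using h5
        · rw [hv] at h7; simpa using h7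
        · have : kF p.1 p.2 (q p).2 (q p).1 = 0 := hp'.2.2
          rw [hv] at this
          exact this
      · rw [Finset.mem_Icc]
        refine ⟨h3, ?_⟩
        rw [hv] at h6
        have h10 : ((q p).1.toNat : ℤ) = (q p).1 := Int.toNat_of_nonneg (by omega)
        have h11 : (q p).1.toNat ≤ ⌊3 * T⌋₊ := by
          apply Nat.le_floor
          have : (((q p).1.toNat : ℤ) : ℝ) ≤ 3 * T := by
            rw [h10]; simpa using h6
          exact_mod_cast this
        show (q p).1 ≤ _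
        omega
    have hinj : Set.InjOn (fun p => (E p, (q p).1)) (S2 : Set (ℤ × ℤ)) := by
      intro p hp p' hp' hpp
      have hp2 : p ∈ S2 := hp
      have hp2' : p' ∈ S2 := hp'
      simp only [Prod.mk.injEq] at hpp
      obtain ⟨hEE, hNN⟩ := hpp
      have hv := hv1 p hp2
      have hv' := hv1 p' hp2'
      have hpf := Finset.mem_filter.mp hp2
      have hpf' := Finset.mem_filter.mp hp2'
      have hKK : K p = K p' := by rw [hpf.2.2, hpf'.2.2]
      have h1 : eF p.1 1 (q p).1 = eF p'.1 1 (q p).1 := by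
        have : eF p.1 (q p).2 (q p).1 = eF p'.1 (q p').2 (q p').1 := hEE
        rw [hv, hv', ← hNN] at this
        exact this
      have h2 : kF p.1 p.2 1 (q p).1 = kF p'.1 p'.2 1 (q p).1 := by
        have : kF p.1 p.2 (q p).2 (q p).1 = kF p'.1 p'.2 (q p').2 (q p').1 := hKK
        rw [hv, hv', ← hNN] at this
        exact this
      obtain ⟨h3, h4⟩ := injF le_rfl h1 h2
      exact Prod.ext h3 h4
    have h1 := Finset.card_le_card_of_injOn _ hmaps hinj
    rw [Finset.card_product, Int.card_Icc] at h1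
    have h2 : ((⌊3 * T⌋₊ : ℤ) + 1 - 1).toNat = ⌊3 * T⌋₊ := by simp
    rw [h2] at h1
    calc (S2.card : ℝ) ≤ ((nzInt (4 * Real.sqrt T * u ^ 3)).card : ℝ) * (⌊3 * T⌋₊ : ℝ) := by
          exact_mod_cast h1
      _ ≤ (2 * (4 * Real.sqrt T * u ^ 3)) * (3 * T) := by
          apply mul_le_mul (card_nzInt_le (by positivity)) (Nat.floor_le (by positivity)) (by positivity)
            (by positivity)
      _ = _ := by ring
  -- case 3
  have hS3card : (S3.card : ℝ) ≤ ∑ v ∈ Finset.Icc 1 ⌊1 / u⌋₊,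
      (24 * (100 * T * v * u ^ 3) * (1 + Real.log (12 * (100 * T * v * u ^ 3 + 1)))) *
      (36 * τ ^ 3 * (2 * (14 * T * v * u ^ 2) / (v : ℝ) ^ 2 + 1 +
        2 * Real.sqrt (40 * T * v) / (v : ℝ) ^ 2 * (2 + 4 * Real.sqrt (14 * T * v * u ^ 2) / (v : ℝ) ^ 2))) := by
    have hmaps : ∀ p ∈ S3, (q p).2.toNat ∈ Finset.Icc 1 ⌊1 / u⌋₊ := by
      intro p hp
      have hp' := Finset.mem_filter.mp hp
      obtain ⟨h1, h2, _⟩ := hq p hp'.1
      rw [Finset.mem_Icc]
      refine ⟨by omega, ?_⟩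
      apply Nat.le_floor
      have h3 : (((q p).2.toNat : ℤ) : ℝ) = (q p).2 := by
        have : ((q p).2.toNat : ℤ) = (q p).2 := Int.toNat_of_nonneg (by omega)
        rw [this]
      have h4 : (((q p).2.toNat : ℕ) : ℝ) = (q p).2 := by exact_mod_cast h3
      rw [h4, le_div_iff₀ hu]
      exact h2
    rw [Finset.card_eq_sum_card_fiberwise (f := fun p => (q p).2.toNat) (t := Finset.Icc 1 ⌊1 / u⌋₊)
      (by intro p hp; exact hmaps p hp)]
    push_cast
    apply Finset.sum_le_sum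
    intro v hv
    rw [Finset.mem_Icc] at hv
    have hvpos : 0 < v := hv.1
    have hvR : (0 : ℝ) < v := by exact_mod_cast hvpos
    have hvu : (v : ℝ) * u ≤ 1 := by
      have h1 : (v : ℝ) ≤ ⌊1 / u⌋₊ := by exact_mod_cast hv.2
      have h2 := h1.trans (Nat.floor_le (by positivity))
      rwa [le_div_iff₀ hu] at h2
    have hvT : (v : ℝ) ≤ T := by
      by_contra hcon
      push Not at hcon
      have h1 : (v : ℝ) ^ 6 ≤ 4 * T ^ 3 := by
        have h2 : (v * u) ^ 6 ≤ 1 := pow_le_one₀ (by positivity) hvu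
        have h3 : 1 ≤ 4 * T ^ 3 * u ^ 6 := hD1.trans hD
        calc (v : ℝ) ^ 6 = v ^ 6 * 1 := by ring
          _ ≤ v ^ 6 * (4 * T ^ 3 * u ^ 6) := mul_le_mul_of_nonneg_left h3 (by positivity)
          _ = 4 * T ^ 3 * (v * u) ^ 6 := by ring
          _ ≤ 4 * T ^ 3 * 1 := mul_le_mul_of_nonneg_left h2 (by positivity)
          _ = _ := by ring
      have h4 : T ^ 6 < (v : ℝ) ^ 6 := pow_lt_pow_left₀ hcon hT0.le (by norm_num)
      have h5 : 4 * T ^ 3 ≤ T ^ 6 := by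
        have : (20 : ℝ) ^ 3 ≤ T ^ 3 := pow_le_pow_left₀ (by norm_num) hT 3
        have h6 : T ^ 6 = T ^ 3 * T ^ 3 := by ring
        rw [h6]
        apply mul_le_mul_of_nonneg_right _ (by positivity)
        linarith
      linarith
    set S4 := S3.filter (fun p => (q p).2.toNat = v) with hS4
    have hvq : ∀ p ∈ S4, (q p).2 = v := by
      intro p hp
      have hp' := Finset.mem_filter.mp hp
      have hp'' := Finset.mem_filter.mp hp'.1
      obtain ⟨h1, _⟩ := hq p hp''.1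
      have := hp'.2
      omega
    have hinj : Set.InjOn (fun p => (A p, K p, E p)) (S4 : Set (ℤ × ℤ)) := by
      intro p hp p' hp' hpp
      have hp2 : p ∈ S4 := hp
      have hp2' : p' ∈ S4 := hp'
      simp only [Prod.mk.injEq] at hpp
      obtain ⟨hAA, hKK, hEE⟩ := hpp
      have hv' := hvq p hp2
      have hv'' := hvq p' hp2'
      have hpf := Finset.mem_filter.mp (Finset.mem_filter.mp hp2).1
      have hNN : (q p).1 = (q p').1 := by
        have a1 := hAdef p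
        have a2 := hAdef p'
        rw [← hAA, ← hKK, ← hEE] at a2
        have : 4 * K p * (q p).1 = 4 * K p * (q p').1 := by linarith
        have h0 := hpf.2.2
        exact mul_left_cancel₀ (by simpa using h0) this
      have h1 : eF p.1 v (q p).1 = eF p'.1 v (q p).1 := by
        have : eF p.1 (q p).2 (q p).1 = eF p'.1 (q p').2 (q p').1 := hEE
        rw [hv', hv'', ← hNN] at this
        exact this
      have h2 : kF p.1 p.2 v (q p).1 = kF p'.1 p'.2 v (q p).1 := by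
        have : kF p.1 p.2 (q p).2 (q p).1 = kF p'.1 p'.2 (q p').2 (q p').1 := hKK
        rw [hv', hv'', ← hNN] at this
        exact this
      obtain ⟨h3, h4⟩ := injF (by exact_mod_cast hvpos) h1 h2
      exact Prod.ext h3 h4
    rw [← Finset.card_image_of_injOn hinj]
    apply fixed_count hvpos (by positivity) (by positivity) (by positivity) hτ1
    · apply hτ
      · positivity
      · push_cast
        have : (v : ℝ) ^ 2 ≤ T ^ 2 := pow_le_pow_left₀ hvR.le hvT 2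
        nlinarith
    · intro n hn hnK
      apply hτ n hn
      refine hnK.trans ?_
      calc 14 * T * v * u ^ 2 = 14 * T * u * (v * u) := by ring
        _ ≤ 14 * T * u * 1 := mul_le_mul_of_nonneg_left hvu (by positivity)
        _ ≤ 14 * T * 1 := by
            rw [mul_one, mul_one]
            exact mul_le_of_le_one_right (by positivity) hu1
        _ ≤ 75 * T ^ 2 := by nlinarith
    · intro w hw
      rw [Finset.mem_image] at hw
      obtain ⟨p, hp, rfl⟩ := hw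
      have hp' := Finset.mem_filter.mp hp
      have hp'' := Finset.mem_filter.mp hp'.1
      have hv' := hvq p hp
      obtain ⟨h1, h2, h3, h4, h5, h6, h7, h8, h9⟩ := hq p hp''.1
      have hvc : (((q p).2 : ℤ) : ℝ) = (v : ℝ) := by rw [hv']; push_cast; rfl
      refine ⟨hp''.2.1, ?_, hp''.2.2, ?_, ?_, ?_, (q p).1, ?_, ?_, ?_, ?_⟩
      · have : |(A p : ℝ)| ≤ 100 * T * (q p).2 * u ^ 3 := h9
        rw [hvc] at this
        exact this
      · have : |(K p : ℝ)| ≤ 14 * T * (q p).2 * u ^ 2 := h8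
        rw [hvc] at this
        exact this
      · refine ⟨4 * (q p).1, ?_⟩
        show 3 * E p ^ 2 + A p = _
        rw [hAdef p]; ring
      · have := e_main hT hu hu1 h1 h3 h6 (hAdef p) hp''.2.2 h9
        rw [hvc] at this
        exact this
      · rw [← hv']; exact h4
      · rw [← hv']; exact congrF_a _ _ _ _
      · rw [← hv']; exact congrF_k _ _ _ _
      · rw [← hv']; exact congrF_e _ _ _
  linarith

end Pool.Agent.Helper13.Hall
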