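import Mathlib
import Pool.Agent.Helper13.Hall.Block

/-! # Summation over the denominators -/

namespace Pool.Agent.Helper13.Hall

open Finset

lemma per_v {T u v : ℝ} (hT : 0 < T) (hu : 0 < u) (hv : 1 ≤ v) :
    v * (2 * (14 * T * v * u ^ 2) / v ^ 2 + 1 +
        2 * Real.sqrt (40 * T * v) / v ^ 2 * (2 + 4 * Real.sqrt (14 * T * v * u ^ 2) / v ^ 2)) ≤
      28 * T * u ^ 2 + v + 26 * Real.sqrt T * (1 / Real.sqrt v) + 192 * T * u * (1 / v ^ 2) := by
  have hv0 : 0 < v := by linarith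
  set r := Real.sqrt v with hr
  set t := Real.sqrt T with ht
  have hr0 : 0 < r := Real.sqrt_pos.mpr hv0
  have ht0 : 0 < t := Real.sqrt_pos.mpr hT
  have hvr : v = r ^ 2 := (Real.sq_sqrt hv0.le).symm
  have hTt : T = t ^ 2 := (Real.sq_sqrt hT.le).symm
  have h1 : Real.sqrt (40 * T * v) ≤ 6.4 * t * r := by
    apply Real.sqrt_le_iff.mpr
    refine ⟨by positivity, ?_⟩
    rw [hvr, hTt]
    have : 0 ≤ t ^ 2 * r ^ 2 := by positivity
    nlinarith
  have h2 : Real.sqrt (14 * T * v * u ^ 2) ≤ 3.75 * t * r * u := by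
    apply Real.sqrt_le_iff.mpr
    refine ⟨by positivity, ?_⟩
    rw [hvr, hTt]
    have : 0 ≤ t ^ 2 * r ^ 2 * u ^ 2 := by positivity
    nlinarith
  have h3 : v * (2 * (14 * T * v * u ^ 2) / v ^ 2) = 28 * T * u ^ 2 := by
    field_simp; ring
  have h4 : v * (2 * Real.sqrt (40 * T * v) / v ^ 2 * (2 + 4 * Real.sqrt (14 * T * v * u ^ 2) / v ^ 2))
      ≤ v * (2 * (6.4 * t * r) / v ^ 2 * (2 + 4 * (3.75 * t * r * u) / v ^ 2)) := by
    apply mul_le_mul_of_nonneg_left _ hv0.le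
    apply mul_le_mul
    · apply div_le_div_of_nonneg_right (by linarith) (by positivity)
    · have := div_le_div_of_nonneg_right (mul_le_mul_of_nonneg_left h2 (by norm_num : (0:ℝ) ≤ 4))
        (show 0 ≤ v ^ 2 by positivity)
      linarith
    · positivity
    · positivity
  have h5 : v * (2 * (6.4 * t * r) / v ^ 2 * (2 + 4 * (3.75 * t * r * u) / v ^ 2)) =
      25.6 * t * (1 / r) + 192 * T * u * (1 / v ^ 2) := by
    rw [hvr, hTt]
    field_simp
    ring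
  have h6 : 25.6 * t * (1 / r) ≤ 26 * t * (1 / r) := by
    apply mul_le_mul_of_nonneg_right _ (by positivity)
    linarith
  calc _ = v * (2 * (14 * T * v * u ^ 2) / v ^ 2) + v +
        v * (2 * Real.sqrt (40 * T * v) / v ^ 2 * (2 + 4 * Real.sqrt (14 * T * v * u ^ 2) / v ^ 2)) := by ring
    _ ≤ 28 * T * u ^ 2 + v + (26 * t * (1 / r) + 192 * T * u * (1 / v ^ 2)) := by
        rw [h3]; linarith
    _ = _ := by ring

lemma sum_inv_sq_le (V : ℕ) : ∑ v ∈ Finset.Icc 1 V, (1 : ℝ) / (v : ℝ) ^ 2 ≤ 2 := by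
  have h := sum_Ioo_inv_sq_le (α := ℝ) 0 (V + 1)
  have e : Finset.Ioo 0 (V + 1) = Finset.Icc 1 V := by
    ext j; simp only [Finset.mem_Ioo, Finset.mem_Icc]; omega
  rw [e] at h
  norm_num at h
  simpa [one_div] using h

lemma sum_id_le (V : ℕ) : ∑ v ∈ Finset.Icc 1 V, (v : ℝ) ≤ (V : ℝ) ^ 2 := by
  calc ∑ v ∈ Finset.Icc 1 V, (v : ℝ) ≤ ∑ v ∈ Finset.Icc 1 V, (V : ℝ) := by
        apply Finset.sum_le_sum
        intro v hv
        exact_mod_cast (Finset.mem_Icc.mp hv).2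
    _ = (V : ℝ) ^ 2 := by
        rw [Finset.sum_const, Nat.card_Icc, nsmul_eq_mul]
        simp; ring

lemma sum_P_le {T u : ℝ} (hT : 0 < T) (hu : 0 < u) :
    T * u ^ 3 * ∑ v ∈ Finset.Icc 1 ⌊1 / u⌋₊, (28 * T * u ^ 2 + v + 26 * Real.sqrt T * (1 / Real.sqrt v) +
      192 * T * u * (1 / (v : ℝ) ^ 2)) ≤ 438 * (T * u + T ^ 2 * u ^ 4) := by
  set V := ⌊1 / u⌋₊ with hV
  have hVu : (V : ℝ) ≤ 1 / u := Nat.floor_le (by positivity)
  set t := Real.sqrt T with ht
  set w := Real.sqrt u with hw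
  have ht0 : 0 < t := Real.sqrt_pos.mpr hT
  have hw0 : 0 < w := Real.sqrt_pos.mpr hu
  have hTt : T = t ^ 2 := (Real.sq_sqrt hT.le).symm
  have huw : u = w ^ 2 := (Real.sq_sqrt hu.le).symm
  have hsV : Real.sqrt V ≤ 1 / w := by
    apply Real.sqrt_le_iff.mpr
    refine ⟨by positivity, ?_⟩
    rw [div_pow, one_pow, ← huw]
    exact hVu
  have h1 : ∑ v ∈ Finset.Icc 1 V, (28 * T * u ^ 2 + (v : ℝ) + 26 * t * (1 / Real.sqrt v) +
      192 * T * u * (1 / (v : ℝ) ^ 2)) ≤ 28 * T * u + 1 / u ^ 2 + 52 * t * (1 / w) + 384 * T * u := by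
    rw [Finset.sum_add_distrib, Finset.sum_add_distrib, Finset.sum_add_distrib, Finset.sum_const,
      Nat.card_Icc, nsmul_eq_mul, ← Finset.mul_sum, ← Finset.mul_sum]
    have a1 : ((V + 1 - 1 : ℕ) : ℝ) * (28 * T * u ^ 2) ≤ 28 * T * u := by
      rw [Nat.add_sub_cancel]
      calc (V : ℝ) * (28 * T * u ^ 2) ≤ (1 / u) * (28 * T * u ^ 2) :=
            mul_le_mul_of_nonneg_right hVu (by positivity)
        _ = _ := by field_simp
    have a2 : ∑ v ∈ Finset.Icc 1 V, (v : ℝ) ≤ 1 / u ^ 2 := by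
      refine (sum_id_le V).trans ?_
      calc (V : ℝ) ^ 2 ≤ (1 / u) ^ 2 := pow_le_pow_left₀ (by positivity) hVu 2
        _ = _ := by rw [div_pow, one_pow]
    have a3 : 26 * t * ∑ v ∈ Finset.Icc 1 V, (1 / Real.sqrt v) ≤ 52 * t * (1 / w) := by
      have := sum_inv_sqrt_le V
      calc 26 * t * ∑ v ∈ Finset.Icc 1 V, (1 / Real.sqrt v) ≤ 26 * t * (2 * (1 / w)) := by
            apply mul_le_mul_of_nonneg_left _ (by positivity)
            linarith
        _ = _ := by ring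
    have a4 : 192 * T * u * ∑ v ∈ Finset.Icc 1 V, (1 / (v : ℝ) ^ 2) ≤ 384 * T * u := by
      have := sum_inv_sq_le V
      calc 192 * T * u * ∑ v ∈ Finset.Icc 1 V, (1 / (v : ℝ) ^ 2) ≤ 192 * T * u * 2 :=
            mul_le_mul_of_nonneg_left this (by positivity)
        _ = _ := by ring
    linarith
  have h2 : T * u ^ 3 * (28 * T * u + 1 / u ^ 2 + 52 * t * (1 / w) + 384 * T * u) =
      412 * (T ^ 2 * u ^ 4) + T * u + 52 * (t ^ 3 * w ^ 5) := by
    have e1 : T * u ^ 3 * (1 / u ^ 2) = T * u := by field_simp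
    have e2 : T * u ^ 3 * (52 * t * (1 / w)) = 52 * (t ^ 3 * w ^ 5) := by
      rw [hTt, huw]; field_simp
    calc _ = 412 * (T ^ 2 * u ^ 4) + T * u ^ 3 * (1 / u ^ 2) + T * u ^ 3 * (52 * t * (1 / w)) := by ring
      _ = _ := by rw [e1, e2]
  have h3 : t ^ 3 * w ^ 5 ≤ (T ^ 2 * u ^ 4 + T * u) / 2 := by
    rw [hTt, huw]
    have := sq_nonneg (t ^ 2 * w ^ 4 - t * w)
    nlinarith
  have h4 : 0 ≤ T * u ^ 3 := by positivity
  have h5 : 0 ≤ T * u := by positivity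
  have h6 : 0 ≤ T ^ 2 * u ^ 4 := by positivity
  calc _ ≤ T * u ^ 3 * (28 * T * u + 1 / u ^ 2 + 52 * t * (1 / w) + 384 * T * u) :=
        mul_le_mul_of_nonneg_left h1 h4
    _ ≤ _ := by rw [h2]; linarith

lemma block_bound {T u D τ : ℝ} (hT : 20 ≤ T) (hu : 0 < u) (hu1 : u ≤ 1) (hD1 : 1 ≤ D)
    (hD : D ≤ 4 * T ^ 3 * u ^ 6) (hτ1 : 1 ≤ τ)
    (hτ : ∀ n : ℕ, 0 < n → (n : ℝ) ≤ 75 * T ^ 2 → (n.divisors.card : ℝ) ≤ τ)
    {S : Finset (ℤ × ℤ)}
    (hS : ∀ p ∈ S, T ^ 2 ≤ (p.1 : ℝ) ∧ (p.1 : ℝ) < 2 * T ^ 2 ∧ 0 < p.2 ∧ p.2 ^ 2 ≠ p.1 ^ 3 ∧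
      |((p.2 : ℝ) ^ 2 - (p.1 : ℝ) ^ 3)| ≤ D) :
    (S.card : ℝ) ≤ 40000000 * ((1 + Real.log (12 * (100 * T + 1))) * τ ^ 3) *
      (T * u + T ^ 2 * u ^ 4) := by
  have hT0 : 0 < T := by linarith
  have h := block_count hT hu hu1 hD1 hD hτ1 hτ hS
  set L := 1 + Real.log (12 * (100 * T + 1)) with hL
  have hL1 : 1 ≤ L := by
    have : 0 ≤ Real.log (12 * (100 * T + 1)) := Real.log_nonneg (by linarith)
    linarith
  have hτ3 : 1 ≤ τ ^ 3 := one_le_pow₀ hτ1
  have hτ3' : τ ≤ τ ^ 3 := le_self_pow₀ hτ1 (by norm_num)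
  have hLτ : 1 ≤ L * τ ^ 3 := by nlinarith
  have hLτ' : τ ≤ L * τ ^ 3 := by nlinarith
  have hsum : ∑ v ∈ Finset.Icc 1 ⌊1 / u⌋₊,
      (24 * (100 * T * v * u ^ 3) * (1 + Real.log (12 * (100 * T * v * u ^ 3 + 1)))) *
      (36 * τ ^ 3 * (2 * (14 * T * v * u ^ 2) / (v : ℝ) ^ 2 + 1 +
        2 * Real.sqrt (40 * T * v) / (v : ℝ) ^ 2 * (2 + 4 * Real.sqrt (14 * T * v * u ^ 2) / (v : ℝ) ^ 2)))
      ≤ 86400 * (L * τ ^ 3) * (438 * (T * u + T ^ 2 * u ^ 4)) := by
    calc _ ≤ ∑ v ∈ Finset.Icc 1 ⌊1 / u⌋₊, (86400 * (L * τ ^ 3) * (T * u ^ 3)) *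
          (28 * T * u ^ 2 + v + 26 * Real.sqrt T * (1 / Real.sqrt v) + 192 * T * u * (1 / (v : ℝ) ^ 2)) := by
          apply Finset.sum_le_sum
          intro v hv
          rw [Finset.mem_Icc] at hv
          have hv1 : (1 : ℝ) ≤ v := by exact_mod_cast hv.1
          have hvu : (v : ℝ) * u ≤ 1 := by
            have h1 : (v : ℝ) ≤ ⌊1 / u⌋₊ := by exact_mod_cast hv.2
            have h2 := h1.trans (Nat.floor_le (by positivity))
            rwa [le_div_iff₀ hu] at h2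
          have hlog : 1 + Real.log (12 * (100 * T * v * u ^ 3 + 1)) ≤ L := by
            rw [hL]
            have : Real.log (12 * (100 * T * v * u ^ 3 + 1)) ≤ Real.log (12 * (100 * T + 1)) := by
              apply Real.log_le_log (by positivity)
              have h1 : (v : ℝ) * u ^ 3 ≤ 1 := by
                calc (v : ℝ) * u ^ 3 = (v * u) * u ^ 2 := by ring
                  _ ≤ 1 * 1 := by
                      apply mul_le_mul hvu (pow_le_one₀ hu.le hu1) (by positivity) (by norm_num)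
                  _ = 1 := by norm_num
              have h2 : 100 * T * v * u ^ 3 ≤ 100 * T := by
                calc 100 * T * v * u ^ 3 = 100 * T * (v * u ^ 3) := by ring
                  _ ≤ 100 * T * 1 := mul_le_mul_of_nonneg_left h1 (by positivity)
                  _ = _ := by ring
              linarith
            linarith
          have hp := per_v hT0 hu hv1
          set P := 2 * (14 * T * v * u ^ 2) / (v : ℝ) ^ 2 + 1 +
            2 * Real.sqrt (40 * T * v) / (v : ℝ) ^ 2 * (2 + 4 * Real.sqrt (14 * T * v * u ^ 2) / (v : ℝ) ^ 2) with hP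
          have hP0 : 0 ≤ P := by positivity
          calc (24 * (100 * T * v * u ^ 3) * (1 + Real.log (12 * (100 * T * v * u ^ 3 + 1)))) * (36 * τ ^ 3 * P)
              ≤ (24 * (100 * T * v * u ^ 3) * L) * (36 * τ ^ 3 * P) := by
                apply mul_le_mul_of_nonneg_right _ (by positivity)
                exact mul_le_mul_of_nonneg_left hlog (by positivity)
            _ = (86400 * (L * τ ^ 3) * (T * u ^ 3)) * (v * P) := by ring
            _ ≤ _ := mul_le_mul_of_nonneg_left hp (by positivity)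
      _ = 86400 * (L * τ ^ 3) * (T * u ^ 3 * ∑ v ∈ Finset.Icc 1 ⌊1 / u⌋₊,
          (28 * T * u ^ 2 + v + 26 * Real.sqrt T * (1 / Real.sqrt v) + 192 * T * u * (1 / (v : ℝ) ^ 2))) := by
          rw [← Finset.mul_sum]; ring
      _ ≤ _ := mul_le_mul_of_nonneg_left (sum_P_le hT0 hu) (by positivity)
  -- the case-2 term
  have hc2 : T * Real.sqrt T * u ^ 3 ≤ 2 * (T ^ 2 * u ^ 4) := by
    set t := Real.sqrt T with ht
    have ht0 : 0 < t := Real.sqrt_pos.mpr hT0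
    have hTt : T = t ^ 2 := (Real.sq_sqrt hT0.le).symm
    have htu : 1 / 2 ≤ t * u := by
      by_contra hcon
      push Not at hcon
      have h1 : (t * u) ^ 6 < (1 / 2) ^ 6 := pow_lt_pow_left₀ hcon (by positivity) (by norm_num)
      have h2 : 1 ≤ 4 * (t * u) ^ 6 := by
        have : 4 * T ^ 3 * u ^ 6 = 4 * (t * u) ^ 6 := by rw [hTt]; ring
        rw [← this]; exact hD1.trans hD
      norm_num at h1
      linarith
    have e1 : T * t * u ^ 3 = t ^ 3 * u ^ 3 * 1 := by rw [hTt]; ring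
    have e2 : 2 * (T ^ 2 * u ^ 4) = t ^ 3 * u ^ 3 * (2 * (t * u)) := by rw [hTt]; ring
    rw [e1, e2]
    apply mul_le_mul_of_nonneg_left _ (by positivity)
    linarith
  have h5 : 0 ≤ T * u := by positivity
  have h6 : 0 ≤ T ^ 2 * u ^ 4 := by positivity
  have h7 : 10 * T * u * τ ≤ 10 * (L * τ ^ 3) * (T * u + T ^ 2 * u ^ 4) := by
    calc 10 * T * u * τ = 10 * τ * (T * u) := by ring
      _ ≤ 10 * (L * τ ^ 3) * (T * u) := by
          apply mul_le_mul_of_nonneg_right _ h5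
          linarith
      _ ≤ _ := mul_le_mul_of_nonneg_left (by linarith) (by positivity)
  have h8 : 24 * T * Real.sqrt T * u ^ 3 ≤ 48 * (L * τ ^ 3) * (T * u + T ^ 2 * u ^ 4) := by
    calc 24 * T * Real.sqrt T * u ^ 3 = 24 * (T * Real.sqrt T * u ^ 3) := by ring
      _ ≤ 48 * 1 * (T * u + T ^ 2 * u ^ 4) := by linarith
      _ ≤ _ := by
          apply mul_le_mul_of_nonneg_right _ (by positivity)
          linarith
  have h9 : 0 ≤ (L * τ ^ 3) * (T * u + T ^ 2 * u ^ 4) := by positivity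
  nlinarith

end Pool.Agent.Helper13.Hall
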