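import Mathlib
import Pool.Agent.Helper13.Hall.Divisor
import Pool.Agent.Helper13.Hall.Analysis

/-! # Assembly: the block bound with explicit powers -/

namespace Pool.Agent.Helper13.Hall

open Finset

/-- the factor coming from the divisor function and the logarithm is `O(T^ε)` -/
lemma tau_log_bound {ε : ℝ} (hε : 0 < ε) :
    ∃ C : ℝ, 1 ≤ C ∧ ∀ T : ℝ, 20 ≤ T → ∃ τ : ℝ, 1 ≤ τ ∧
      (∀ n : ℕ, 0 < n → (n : ℝ) ≤ 75 * T ^ 2 → (n.divisors.card : ℝ) ≤ τ) ∧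
      (1 + Real.log (12 * (100 * T + 1))) * τ ^ 3 ≤ C * T ^ ε := by
  set δ := ε / 7 with hδ
  have hδ0 : 0 < δ := by positivity
  obtain ⟨C1, hC1, hdiv⟩ := divisor_bound hδ0
  refine ⟨(1 + 1 / δ) * 1300 ^ δ * (C1 * 75 ^ δ) ^ 3, ?_, ?_⟩
  · have h1 : 1 ≤ 1 + 1 / δ := by
      have : 0 < 1 / δ := by positivity
      linarith
    have h2 : (1 : ℝ) ≤ 1300 ^ δ := Real.one_le_rpow (by norm_num) hδ0.le
    have h3 : (1 : ℝ) ≤ C1 * 75 ^ δ := by
      have : (1 : ℝ) ≤ 75 ^ δ := Real.one_le_rpow (by norm_num) hδ0.le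
      nlinarith
    have h4 : (1 : ℝ) ≤ (C1 * 75 ^ δ) ^ 3 := one_le_pow₀ h3
    have h5 : 1 ≤ (1 + 1 / δ) * 1300 ^ δ := by nlinarith
    nlinarith
  · intro T hT
    have hT0 : 0 < T := by linarith
    refine ⟨C1 * (75 * T ^ 2) ^ δ, ?_, ?_, ?_⟩
    · have h1 : (1 : ℝ) ≤ (75 * T ^ 2) ^ δ := Real.one_le_rpow (by nlinarith) hδ0.le
      nlinarith
    · intro n _ hn
      refine (hdiv n).trans ?_
      apply mul_le_mul_of_nonneg_left _ (by linarith)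
      exact Real.rpow_le_rpow (by positivity) hn hδ0.le
    · have h1 : 1 + Real.log (12 * (100 * T + 1)) ≤ (1 + 1 / δ) * (1300 * T) ^ δ := by
        have a1 : Real.log (12 * (100 * T + 1)) ≤ (1300 * T) ^ δ / δ := by
          refine le_trans ?_ (Real.log_le_rpow_div (by positivity) hδ0)
          apply Real.log_le_log (by positivity)
          linarith
        have a2 : (1 : ℝ) ≤ (1300 * T) ^ δ := Real.one_le_rpow (by linarith) hδ0.le
        have a3 : (1 + 1 / δ) * (1300 * T) ^ δ = (1300 * T) ^ δ + (1300 * T) ^ δ / δ := by ring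
        rw [a3]; linarith
      have h2 : (C1 * (75 * T ^ 2) ^ δ) ^ 3 = (C1 * 75 ^ δ) ^ 3 * T ^ (6 * δ) := by
        rw [Real.mul_rpow (by norm_num) (by positivity)]
        rw [← Real.rpow_natCast T 2, ← Real.rpow_mul hT0.le]
        have : (T ^ (((2 : ℕ) : ℝ) * δ)) ^ 3 = T ^ (6 * δ) := by
          rw [← Real.rpow_natCast, ← Real.rpow_mul hT0.le]
          congr 1
          push_cast; ring
        rw [← this]
        ring
      have h3 : (1300 * T) ^ δ = 1300 ^ δ * T ^ δ := Real.mul_rpow (by norm_num) hT0.le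
      have hC0 : 0 ≤ C1 := by linarith
      calc (1 + Real.log (12 * (100 * T + 1))) * (C1 * (75 * T ^ 2) ^ δ) ^ 3
          ≤ ((1 + 1 / δ) * (1300 * T) ^ δ) * (C1 * (75 * T ^ 2) ^ δ) ^ 3 :=
            mul_le_mul_of_nonneg_right h1 (by positivity)
        _ = (1 + 1 / δ) * 1300 ^ δ * (C1 * 75 ^ δ) ^ 3 * (T ^ δ * T ^ (6 * δ)) := by
            rw [h2, h3]; ring
        _ = _ := by
            rw [← Real.rpow_add hT0]
            congr 2
            rw [hδ]; ring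

lemma block_final {ε : ℝ} (hε : 0 < ε) :
    ∃ C : ℝ, 1 ≤ C ∧ ∀ T D : ℝ, 20 ≤ T → 1 ≤ D → D ≤ 4 * T ^ 3 → ∀ S : Finset (ℤ × ℤ),
      (∀ p ∈ S, T ^ 2 ≤ (p.1 : ℝ) ∧ (p.1 : ℝ) < 2 * T ^ 2 ∧ 0 < p.2 ∧ p.2 ^ 2 ≠ p.1 ^ 3 ∧
        |((p.2 : ℝ) ^ 2 - (p.1 : ℝ) ^ 3)| ≤ D) →
      (S.card : ℝ) ≤ C * T ^ ε * (T ^ (1 / 2 : ℝ) * D ^ (1 / 6 : ℝ) + D ^ (2 / 3 : ℝ)) := by
  obtain ⟨C, hC, hCT⟩ := tau_log_bound hε
  refine ⟨40000000 * C, by linarith, ?_⟩
  intro T D hT hD1 hD4 S hS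
  have hT0 : 0 < T := by linarith
  have hD0 : 0 < D := by linarith
  obtain ⟨τ, hτ1, hτ, hLτ⟩ := hCT T hT
  set u := (D / (4 * T ^ 3)) ^ (1 / 6 : ℝ) with hu_def
  have hu : 0 < u := by positivity
  have hu6 : u ^ 6 = D / (4 * T ^ 3) := by
    rw [hu_def, ← Real.rpow_natCast, ← Real.rpow_mul (by positivity)]
    norm_num
  have hu1 : u ≤ 1 := by
    apply Real.rpow_le_one (by positivity) _ (by norm_num)
    rw [div_le_one (by positivity)]
    exact hD4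
  have hDu : D = 4 * T ^ 3 * u ^ 6 := by
    rw [hu6]; field_simp
  have hb := block_bound hT hu hu1 hD1 hDu.le hτ1 hτ hS
  have e1 : T * u ≤ T ^ (1 / 2 : ℝ) * D ^ (1 / 6 : ℝ) := by
    have h1 : D ^ (1 / 6 : ℝ) = 4 ^ (1 / 6 : ℝ) * T ^ (1 / 2 : ℝ) * u := by
      rw [hDu, Real.mul_rpow (by positivity) (by positivity), Real.mul_rpow (by norm_num) (by positivity),
        ← Real.rpow_natCast T 3, ← Real.rpow_natCast u 6, ← Real.rpow_mul hT0.le, ← Real.rpow_mul hu.le]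
      norm_num
    have h2 : T ^ (1 / 2 : ℝ) * T ^ (1 / 2 : ℝ) = T := by
      rw [← Real.rpow_add hT0]; norm_num
    have h3 : (1 : ℝ) ≤ 4 ^ (1 / 6 : ℝ) := Real.one_le_rpow (by norm_num) (by norm_num)
    calc T * u = 1 * (T * u) := by ring
      _ ≤ 4 ^ (1 / 6 : ℝ) * (T * u) := mul_le_mul_of_nonneg_right h3 (by positivity)
      _ = 4 ^ (1 / 6 : ℝ) * ((T ^ (1 / 2 : ℝ) * T ^ (1 / 2 : ℝ)) * u) := by rw [h2]
      _ = _ := by rw [h1]; ring
  have e2 : T ^ 2 * u ^ 4 ≤ D ^ (2 / 3 : ℝ) := by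
    have h1 : D ^ (2 / 3 : ℝ) = 4 ^ (2 / 3 : ℝ) * (T ^ 2 * u ^ 4) := by
      rw [hDu, Real.mul_rpow (by positivity) (by positivity), Real.mul_rpow (by norm_num) (by positivity),
        ← Real.rpow_natCast T 3, ← Real.rpow_natCast u 6, ← Real.rpow_mul hT0.le, ← Real.rpow_mul hu.le,
        ← Real.rpow_natCast T 2, ← Real.rpow_natCast u 4]
      have a1 : ((3 : ℕ) : ℝ) * (2 / 3) = ((2 : ℕ) : ℝ) := by norm_num
      have a2 : ((6 : ℕ) : ℝ) * (2 / 3) = ((4 : ℕ) : ℝ) := by norm_num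
      rw [a1, a2]; ring
    have h3 : (1 : ℝ) ≤ 4 ^ (2 / 3 : ℝ) := Real.one_le_rpow (by norm_num) (by norm_num)
    rw [h1]
    exact le_mul_of_one_le_left (by positivity) h3
  calc (S.card : ℝ) ≤ 40000000 * ((1 + Real.log (12 * (100 * T + 1))) * τ ^ 3) *
      (T * u + T ^ 2 * u ^ 4) := hb
    _ ≤ 40000000 * (C * T ^ ε) * (T * u + T ^ 2 * u ^ 4) := by
        apply mul_le_mul_of_nonneg_right _ (by positivity)
        exact mul_le_mul_of_nonneg_left hLτ (by norm_num)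
    _ ≤ 40000000 * (C * T ^ ε) * (T ^ (1 / 2 : ℝ) * D ^ (1 / 6 : ℝ) + D ^ (2 / 3 : ℝ)) := by
        apply mul_le_mul_of_nonneg_left (by linarith)
        have : 0 ≤ C := by linarith
        positivity
    _ = _ := by ring

end Pool.Agent.Helper13.Hall
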