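import Mathlib

/-! # Definition for the counting theorem about Hall's conjecture -/

namespace Pool.Agent.Helper13.Hall

/-- `nearPts X D`: the integral points `(x, y)` on the curves `y² = x³ + d` with
`0 < |d| ≤ D`, in the range `|d|^{2/3} ≤ x ≤ X` (`d = y² - x³`). -/
def nearPts (X D : ℝ) : Set (ℤ × ℤ) :=
  {p | 0 < p.1 ∧ (p.1 : ℝ) ≤ X ∧ p.2 ^ 2 ≠ p.1 ^ 3 ∧ |((p.2 ^ 2 - p.1 ^ 3 : ℤ) : ℝ)| ≤ D ∧
    (p.2 ^ 2 - p.1 ^ 3) ^ 2 ≤ p.1 ^ 3}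

end Pool.Agent.Helper13.Hall
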