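import Mathlib
import Pool.Agent.Helper13.Hall.Defs
import Pool.Agent.Helper13.Hall.Assembly

/-! # The global count of integral near-solutions of `y² = x³` -/

namespace Pool.Agent.Helper13.Hall

open Finset

lemma mem_nearPts {X D : ℝ} {x y : ℤ} : (x, y) ∈ nearPts X D ↔
    (0 < x ∧ (x : ℝ) ≤ X ∧ y ^ 2 ≠ x ^ 3 ∧ |((y ^ 2 - x ^ 3 : ℤ) : ℝ)| ≤ D ∧
    (y ^ 2 - x ^ 3) ^ 2 ≤ x ^ 3) := Iff.rfl

lemma sq_le_of_mem {x y : ℤ} (hx : 0 < x) (h : (y ^ 2 - x ^ 3) ^ 2 ≤ x ^ 3) : y ^ 2 ≤ 2 * x ^ 3 := by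
  have h1 : (1 : ℤ) ≤ x ^ 3 := by
    have : 0 < x ^ 3 := by positivity
    omega
  have h2 : y ^ 2 - x ^ 3 ≤ x ^ 3 := by
    by_contra hcon
    push Not at hcon
    nlinarith
  linarith

lemma nearPts_finite (X D : ℝ) : (nearPts X D).Finite := by
  apply Set.Finite.subset (Set.toFinite
    ((Finset.Icc (1 : ℤ) ⌊X⌋ ×ˢ Finset.Icc (-(2 * ⌊X⌋ ^ 3)) (2 * ⌊X⌋ ^ 3) : Finset (ℤ × ℤ)) : Set (ℤ × ℤ)))
  rintro ⟨x, y⟩ ⟨h1, h2, -, -, h5⟩
  simp only at h1 h2 h5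
  have hxX : x ≤ ⌊X⌋ := Int.le_floor.mpr h2
  have hy := sq_le_of_mem h1 h5
  have hx3 : x ^ 3 ≤ ⌊X⌋ ^ 3 := pow_le_pow_left₀ h1.le hxX 3
  have hy2 : |y| ≤ 2 * ⌊X⌋ ^ 3 := by
    have h6 : |y| ≤ y ^ 2 := by
      rw [← sq_abs]
      rcases eq_or_ne y 0 with h0 | h0
      · simp [h0]
      · have := Int.one_le_abs h0
        nlinarith
    linarith
  have := abs_le.mp hy2
  simp only [Finset.coe_product, Finset.coe_Icc, Set.mem_prod, Set.mem_Icc]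
  exact ⟨⟨by omega, hxX⟩, this.1, this.2⟩

/-- the part with `x < 400` -/
lemma small_part : ∃ S0 : Finset (ℤ × ℤ), (S0.card : ℝ) ≤ 10 ^ 7 ∧
    ∀ x y : ℤ, 0 < x → x < 400 → (y ^ 2 - x ^ 3) ^ 2 ≤ x ^ 3 → (x, y) ∈ S0 := by
  refine ⟨(Finset.Icc (1 : ℤ) 400) ×ˢ (Finset.Icc (-12000 : ℤ) 12000), ?_, ?_⟩
  · rw [Finset.card_product, Int.card_Icc, Int.card_Icc]
    have a1 : ((400 : ℤ) + 1 - 1).toNat = 400 := rfl
    have a2 : ((12000 : ℤ) + 1 - -12000).toNat = 24001 := rfl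
    rw [a1, a2]
    norm_num
  · intro x y h1 hx h5
    rw [Finset.mem_product, Finset.mem_Icc, Finset.mem_Icc]
    have hy := sq_le_of_mem h1 h5
    have hx3 : x ^ 3 ≤ 400 ^ 3 := pow_le_pow_left₀ h1.le hx.le 3
    have hy2 : y ^ 2 ≤ 12000 ^ 2 := by
      refine (hy.trans (mul_le_mul_of_nonneg_left hx3 (by norm_num))).trans (by norm_num)
    have h7 : |y| ≤ 12000 := abs_le_of_sq_le_sq hy2 (by norm_num)
    have h8 := abs_le.mp h7
    exact ⟨⟨by omega, by omega⟩, h8.1, h8.2⟩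

/-- the part of `nearPts` in a dyadic block, with `y > 0` -/
lemma block_apply {C ε : ℝ} (hC : 0 ≤ C) (hε : 0 < ε)
    (hblock : ∀ T D : ℝ, 20 ≤ T → 1 ≤ D → D ≤ 4 * T ^ 3 → ∀ S : Finset (ℤ × ℤ),
      (∀ p ∈ S, T ^ 2 ≤ (p.1 : ℝ) ∧ (p.1 : ℝ) < 2 * T ^ 2 ∧ 0 < p.2 ∧ p.2 ^ 2 ≠ p.1 ^ 3 ∧
        |((p.2 : ℝ) ^ 2 - (p.1 : ℝ) ^ 3)| ≤ D) →
      (S.card : ℝ) ≤ C * T ^ ε * (T ^ (1 / 2 : ℝ) * D ^ (1 / 6 : ℝ) + D ^ (2 / 3 : ℝ)))
    {X D : ℝ} (hX : 1 ≤ X) (hD : 1 ≤ D) (j : ℕ) {S : Finset (ℤ × ℤ)}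
    (hS : ∀ p ∈ S, p ∈ nearPts X D ∧ 0 < p.2 ∧ 400 * 2 ^ j ≤ p.1 ∧ p.1 < 400 * 2 ^ (j + 1)) :
    (S.card : ℝ) ≤ C * X ^ (ε / 2) * (X ^ (1 / 4 : ℝ) * D ^ (1 / 6 : ℝ) + D ^ (2 / 3 : ℝ)) := by
  rcases S.eq_empty_or_nonempty with rfl | ⟨p0, hp0⟩
  · simp; positivity
  set T := Real.sqrt (400 * 2 ^ j) with hT
  have hTsq : T ^ 2 = 400 * 2 ^ j := Real.sq_sqrt (by positivity)
  have hT20 : 20 ≤ T := by
    apply Real.le_sqrt_of_sq_le
    have : (1 : ℝ) ≤ 2 ^ j := one_le_pow₀ (by norm_num)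
    linarith
  have hT0 : 0 < T := by linarith
  have hTX : T ≤ X ^ (1 / 2 : ℝ) := by
    rw [hT, Real.sqrt_eq_rpow]
    apply Real.rpow_le_rpow (by positivity) _ (by norm_num)
    obtain ⟨h1, _, h3, _⟩ := hS p0 hp0
    have h4 : ((400 * 2 ^ j : ℤ) : ℝ) ≤ (p0.1 : ℝ) := by exact_mod_cast h3
    push_cast at h4
    exact h4.trans h1.2.1
  set D' := min D (4 * T ^ 3) with hD'
  have hD'1 : 1 ≤ D' := by
    apply le_min hD
    have : (20 : ℝ) ^ 3 ≤ T ^ 3 := pow_le_pow_left₀ (by norm_num) hT20 3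
    linarith
  have hb := hblock T D' hT20 hD'1 (min_le_right _ _) S (by
    intro p hp
    obtain ⟨⟨h1, h2, h3, h4, h5⟩, h6, h7, h8⟩ := hS p hp
    have h7' : (400 * 2 ^ j : ℝ) ≤ (p.1 : ℝ) := by exact_mod_cast h7
    have h8' : (p.1 : ℝ) < 400 * 2 ^ (j + 1) := by exact_mod_cast h8
    refine ⟨by rw [hTsq]; exact h7', by rw [hTsq]; rw [pow_succ] at h8'; linarith, h6, h3, ?_⟩
    push_cast at h4
    apply le_min h4
    -- |d| ≤ 4 T^3
    have h9 : ((p.2 : ℝ) ^ 2 - (p.1 : ℝ) ^ 3) ^ 2 ≤ (p.1 : ℝ) ^ 3 := by exact_mod_cast h5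
    have h10 : (p.1 : ℝ) ≤ 2 * T ^ 2 := by
      rw [hTsq]; rw [pow_succ] at h8'; linarith
    have hp0' : (0 : ℝ) ≤ p.1 := by exact_mod_cast h1.le
    apply abs_le_of_sq_le_sq _ (by positivity)
    calc ((p.2 : ℝ) ^ 2 - (p.1 : ℝ) ^ 3) ^ 2 ≤ (p.1 : ℝ) ^ 3 := h9
      _ ≤ (2 * T ^ 2) ^ 3 := pow_le_pow_left₀ hp0' h10 3
      _ ≤ (4 * T ^ 3) ^ 2 := by
          have : 0 ≤ T ^ 6 := by positivity
          nlinarith)
  refine hb.trans ?_
  have hX0 : 0 < X := by linarith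
  have e1 : T ^ ε ≤ X ^ (ε / 2) := by
    calc T ^ ε ≤ (X ^ (1 / 2 : ℝ)) ^ ε := Real.rpow_le_rpow hT0.le hTX hε.le
      _ = X ^ (ε / 2) := by
          rw [← Real.rpow_mul hX0.le]; congr 1; ring
  have e2 : T ^ (1 / 2 : ℝ) ≤ X ^ (1 / 4 : ℝ) := by
    calc T ^ (1 / 2 : ℝ) ≤ (X ^ (1 / 2 : ℝ)) ^ (1 / 2 : ℝ) := Real.rpow_le_rpow hT0.le hTX (by norm_num)
      _ = X ^ (1 / 4 : ℝ) := by
          rw [← Real.rpow_mul hX0.le]; congr 1; norm_num
  have hD'0 : 0 < D' := by linarith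
  have e3 : D' ^ (1 / 6 : ℝ) ≤ D ^ (1 / 6 : ℝ) := Real.rpow_le_rpow hD'0.le (min_le_left _ _) (by norm_num)
  have e4 : D' ^ (2 / 3 : ℝ) ≤ D ^ (2 / 3 : ℝ) := Real.rpow_le_rpow hD'0.le (min_le_left _ _) (by norm_num)
  apply mul_le_mul
  · exact mul_le_mul_of_nonneg_left e1 hC
  · apply add_le_add _ e4
    exact mul_le_mul e2 e3 (by positivity) (by positivity)
  · positivity
  · positivity

/-- the main counting theorem -/
theorem nearPts_count {ε : ℝ} (hε : 0 < ε) :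
    ∃ C : ℝ, 1 ≤ C ∧ ∀ X D : ℝ, 1 ≤ X → 1 ≤ D → ((nearPts X D).ncard : ℝ) ≤
      C * X ^ ε * (X ^ (1 / 4 : ℝ) * D ^ (1 / 6 : ℝ) + D ^ (2 / 3 : ℝ)) := by
  classical
  obtain ⟨C, hC, hblock⟩ := block_final hε
  set C' := 2 * C * (1 + (2 / ε) / Real.log 2) with hC'
  have hlog2 : 0 < Real.log 2 := Real.log_pos (by norm_num)
  refine ⟨10 ^ 10 + C', ?_, ?_⟩
  · have : 0 ≤ C' := by positivity
    linarith
  intro X D hX hD
  have hX0 : 0 < X := by linarith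
  set G := X ^ (1 / 4 : ℝ) * D ^ (1 / 6 : ℝ) + D ^ (2 / 3 : ℝ) with hG
  have hG1 : 1 ≤ G := by
    have h1 : (1 : ℝ) ≤ D ^ (2 / 3 : ℝ) := Real.one_le_rpow hD (by norm_num)
    have h2 : 0 ≤ X ^ (1 / 4 : ℝ) * D ^ (1 / 6 : ℝ) := by positivity
    linarith
  have hXε : 1 ≤ X ^ ε := Real.one_le_rpow hX hε.le
  have hfin := nearPts_finite X D
  set S := hfin.toFinset with hS
  have hSmem : ∀ p, p ∈ S ↔ p ∈ nearPts X D := fun p => hfin.mem_toFinset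
  rw [Set.ncard_eq_toFinset_card _ hfin, ← hS]
  -- split into small x, y > 0, y < 0
  set J := Nat.log 2 ⌊X⌋₊ with hJ
  let Sp : ℕ → Finset (ℤ × ℤ) := fun j => S.filter (fun p => 0 < p.2 ∧ 400 * 2 ^ j ≤ p.1 ∧ p.1 < 400 * 2 ^ (j + 1))
  let Sn : ℕ → Finset (ℤ × ℤ) := fun j => S.filter (fun p => p.2 < 0 ∧ 400 * 2 ^ j ≤ p.1 ∧ p.1 < 400 * 2 ^ (j + 1))
  obtain ⟨S0, hS0c, hS0⟩ := small_part
  have hsub : S ⊆ S0 ∪ ((Finset.range (J + 1)).biUnion Sp ∪ (Finset.range (J + 1)).biUnion Sn) := by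
    rintro ⟨x, y⟩ hp
    obtain ⟨h1, h2, h3, h4, h5⟩ := mem_nearPts.mp ((hSmem _).mp hp)
    by_cases hx : x < 400
    · apply Finset.mem_union_left
      exact hS0 x y h1 hx h5
    · push Not at hx
      apply Finset.mem_union_right
      have hy0 : y ≠ 0 := by
        rintro rfl
        have h6 : x ^ 3 * x ^ 3 ≤ x ^ 3 := by nlinarith
        have h7 : 400 ^ 3 ≤ x ^ 3 := pow_le_pow_left₀ (by norm_num) hx 3
        have h8 : (1 : ℤ) < x ^ 3 := by linarith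
        have h9 : x ^ 3 * 1 < x ^ 3 * x ^ 3 := mul_lt_mul_of_pos_left h8 (by linarith)
        linarith
      set z := (x / 400).toNat with hz
      have hz1 : ((x / 400).toNat : ℤ) = x / 400 := Int.toNat_of_nonneg (by omega)
      have hz0 : z ≠ 0 := by omega
      set j := Nat.log 2 z with hj
      have hj1 : 2 ^ j ≤ z := Nat.pow_log_le_self 2 hz0
      have hj2 : z < 2 ^ (j + 1) := Nat.lt_pow_succ_log_self (by norm_num) z
      have hj1' : (2 : ℤ) ^ j ≤ x / 400 := by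
        rw [← hz1]; exact_mod_cast hj1
      have hj2' : x / 400 < (2 : ℤ) ^ (j + 1) := by
        rw [← hz1]; exact_mod_cast hj2
      have hlo : 400 * 2 ^ j ≤ x := by omega
      have hhi : x < 400 * 2 ^ (j + 1) := by omega
      have hjJ : j ∈ Finset.range (J + 1) := by
        rw [Finset.mem_range, Nat.lt_succ_iff]
        apply Nat.log_mono_right
        apply Nat.le_floor
        have h6 : ((z : ℕ) : ℤ) ≤ x := by rw [hz, hz1]; omega
        have h7 : (z : ℝ) ≤ (x : ℝ) := by exact_mod_cast h6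
        exact h7.trans h2
      rcases lt_or_gt_of_ne hy0 with hneg | hpos
      · apply Finset.mem_union_right
        rw [Finset.mem_biUnion]
        exact ⟨j, hjJ, Finset.mem_filter.mpr ⟨hp, hneg, hlo, hhi⟩⟩
      · apply Finset.mem_union_left
        rw [Finset.mem_biUnion]
        exact ⟨j, hjJ, Finset.mem_filter.mpr ⟨hp, hpos, hlo, hhi⟩⟩
  have hSp : ∀ j, ((Sp j).card : ℝ) ≤ C * X ^ (ε / 2) * G := by
    intro j
    apply block_apply (by linarith) hε hblock hX hD j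
    intro p hp
    have hp' := Finset.mem_filter.mp hp
    exact ⟨(hSmem p).mp hp'.1, hp'.2.1, hp'.2.2.1, hp'.2.2.2⟩
  have hSn : ∀ j, ((Sn j).card : ℝ) ≤ C * X ^ (ε / 2) * G := by
    intro j
    have hinj : ((Sn j).image (fun p => (p.1, -p.2))).card = (Sn j).card := by
      apply Finset.card_image_of_injective
      rintro ⟨a, b⟩ ⟨c, d⟩ h
      simp only [Prod.mk.injEq, neg_inj] at h
      exact Prod.ext h.1 h.2
    rw [← hinj]
    apply block_apply (by linarith) hε hblock hX hD j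
    intro p hp
    rw [Finset.mem_image] at hp
    obtain ⟨p, hp, rfl⟩ := hp
    have hp' := Finset.mem_filter.mp hp
    have hm := (hSmem p).mp hp'.1
    refine ⟨?_, ?_, hp'.2.2.1, hp'.2.2.2⟩
    · obtain ⟨h1, h2, h3, h4, h5⟩ := hm
      refine ⟨h1, h2, ?_, ?_, ?_⟩
      · simpa using h3
      · simpa using h4
      · simpa using h5
    · have := hp'.2.1
      show 0 < -p.2
      omega
  have hJb : ((J : ℝ) + 1) ≤ (1 + (2 / ε) / Real.log 2) * X ^ (ε / 2) := by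
    have h1 : (2 : ℝ) ^ J ≤ X := by
      have h2 : 2 ^ J ≤ ⌊X⌋₊ := Nat.pow_log_le_self 2 (Nat.floor_pos.mpr hX).ne'
      have h3 : ((2 ^ J : ℕ) : ℝ) ≤ (⌊X⌋₊ : ℝ) := by exact_mod_cast h2
      push_cast at h3
      exact h3.trans (Nat.floor_le hX0.le)
    have h2 : (J : ℝ) * Real.log 2 ≤ Real.log X := by
      have := Real.log_le_log (by positivity) h1
      rwa [Real.log_pow] at this
    have h3 : Real.log X ≤ X ^ (ε / 2) / (ε / 2) := Real.log_le_rpow_div hX0.le (by positivity)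
    have h4 : (J : ℝ) ≤ (2 / ε) / Real.log 2 * X ^ (ε / 2) := by
      rw [div_mul_eq_mul_div, le_div_iff₀ hlog2]
      refine h2.trans (h3.trans (le_of_eq ?_))
      field_simp
    have h5 : 1 ≤ X ^ (ε / 2) := Real.one_le_rpow hX (by positivity)
    linarith
  have hcard : (S.card : ℝ) ≤ 10 ^ 7 + 2 * ((J + 1) * (C * X ^ (ε / 2) * G)) := by
    have h1 := Finset.card_le_card hsub
    have h2 := Finset.card_union_le S0 ((Finset.range (J + 1)).biUnion Sp ∪ (Finset.range (J + 1)).biUnion Sn)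
    have h3 := Finset.card_union_le ((Finset.range (J + 1)).biUnion Sp) ((Finset.range (J + 1)).biUnion Sn)
    have h4 : ((Finset.range (J + 1)).biUnion Sp).card ≤ ∑ j ∈ Finset.range (J + 1), (Sp j).card :=
      Finset.card_biUnion_le
    have h5 : ((Finset.range (J + 1)).biUnion Sn).card ≤ ∑ j ∈ Finset.range (J + 1), (Sn j).card :=
      Finset.card_biUnion_le
    have h7 : (∑ j ∈ Finset.range (J + 1), ((Sp j).card : ℝ)) ≤ (J + 1) * (C * X ^ (ε / 2) * G) := by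
      calc _ ≤ ∑ j ∈ Finset.range (J + 1), (C * X ^ (ε / 2) * G) := Finset.sum_le_sum (fun j _ => hSp j)
        _ = _ := by rw [Finset.sum_const, Finset.card_range, nsmul_eq_mul]; push_cast; ring
    have h8 : (∑ j ∈ Finset.range (J + 1), ((Sn j).card : ℝ)) ≤ (J + 1) * (C * X ^ (ε / 2) * G) := by
      calc _ ≤ ∑ j ∈ Finset.range (J + 1), (C * X ^ (ε / 2) * G) := Finset.sum_le_sum (fun j _ => hSn j)
        _ = _ := by rw [Finset.sum_const, Finset.card_range, nsmul_eq_mul]; push_cast; ring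
    have h9 : S.card ≤ S0.card + (∑ j ∈ Finset.range (J + 1), (Sp j).card +
        ∑ j ∈ Finset.range (J + 1), (Sn j).card) := by omega
    have h10 : (S.card : ℝ) ≤ S0.card + (∑ j ∈ Finset.range (J + 1), ((Sp j).card : ℝ) +
        ∑ j ∈ Finset.range (J + 1), ((Sn j).card : ℝ)) := by exact_mod_cast h9
    linarith
  have hXX : X ^ (ε / 2) * X ^ (ε / 2) = X ^ ε := by
    rw [← Real.rpow_add hX0]; congr 1; ring
  have hmain : 2 * (((J : ℝ) + 1) * (C * X ^ (ε / 2) * G)) ≤ C' * X ^ ε * G := by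
    calc 2 * (((J : ℝ) + 1) * (C * X ^ (ε / 2) * G)) ≤
        2 * (((1 + (2 / ε) / Real.log 2) * X ^ (ε / 2)) * (C * X ^ (ε / 2) * G)) := by
          apply mul_le_mul_of_nonneg_left _ (by norm_num)
          exact mul_le_mul_of_nonneg_right hJb (by positivity)
      _ = C' * (X ^ (ε / 2) * X ^ (ε / 2)) * G := by rw [hC']; ring
      _ = _ := by rw [hXX]
  have hconst : (10 ^ 7 : ℝ) ≤ 10 ^ 10 * X ^ ε * G := by
    have : 1 ≤ X ^ ε * G := by nlinarith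
    nlinarith
  calc (S.card : ℝ) ≤ 10 ^ 7 + 2 * ((J + 1) * (C * X ^ (ε / 2) * G)) := hcard
    _ ≤ 10 ^ 10 * X ^ ε * G + C' * X ^ ε * G := add_le_add hconst hmain
    _ = _ := by ring

end Pool.Agent.Helper13.Hall
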