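import Mathlib
import Pool.Agent.Helper13.Hall.Defs
import Pool.Agent.Helper13.Hall.Global

/-! # Consequences of the counting theorem (not a hand-in) -/

namespace Pool.Agent.Helper13.Hall

/-- `hallExc X`: the integral points `(x, y)`, `x ≠ 0`, `|x| ≤ X`, on the curves `y² = x³ + d`,
`d ≠ 0`, with `log |x| ≥ 2 log |d|`. -/
def hallExc (X : ℝ) : Set (ℤ × ℤ) :=
  {p | p.1 ≠ 0 ∧ |(p.1 : ℝ)| ≤ X ∧ p.2 ^ 2 ≠ p.1 ^ 3 ∧
    2 * Real.log |((p.2 ^ 2 - p.1 ^ 3 : ℤ) : ℝ)| ≤ Real.log |(p.1 : ℝ)|}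

/-- `badDisc X D`: the integers `d` with `0 < |d| ≤ D` for which `y² = x³ + d` has an integral
solution with `|d|^{2/3} ≤ x ≤ X`. -/
def badDisc (X D : ℝ) : Set ℤ :=
  {d | d ≠ 0 ∧ |(d : ℝ)| ≤ D ∧ ∃ x y : ℤ, y ^ 2 = x ^ 3 + d ∧ d ^ 2 ≤ x ^ 3 ∧ (x : ℝ) ≤ X}

/-- exceptions to Hall's inequality are near points with `D = √X`, except for `(-1, 0)` -/
lemma hallExc_subset (X : ℝ) : hallExc X ⊆ nearPts X (Real.sqrt X) ∪ {(-1, 0)} := by
  rintro ⟨x, y⟩ ⟨h1, h2, h3, h4⟩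
  simp only at h1 h2 h3 h4
  have hd0 : (y ^ 2 - x ^ 3 : ℤ) ≠ 0 := sub_ne_zero.mpr h3
  set d : ℤ := y ^ 2 - x ^ 3 with hd
  have hdabs : (0 : ℝ) < |(d : ℝ)| := abs_pos.mpr (by exact_mod_cast hd0)
  have hxabs : (0 : ℝ) < |(x : ℝ)| := abs_pos.mpr (by exact_mod_cast h1)
  have hlog : |(d : ℝ)| ^ 2 ≤ |(x : ℝ)| := by
    have e : Real.log (|(d : ℝ)| ^ 2) = 2 * Real.log |(d : ℝ)| := by
      rw [Real.log_pow]; norm_num
    rw [← e] at h4
    exact (Real.log_le_log_iff (by positivity) hxabs).mp h4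
  have hdx : d ^ 2 ≤ |x| := by
    rw [sq_abs] at hlog
    have : ((d ^ 2 : ℤ) : ℝ) ≤ ((|x| : ℤ) : ℝ) := by push_cast; exact hlog
    exact_mod_cast this
  rcases lt_or_gt_of_ne h1 with hneg | hpos
  · right
    have hxa : |x| = -x := abs_of_neg hneg
    rw [hxa] at hdx
    have h5 : (-x) ^ 3 ≤ d := by
      have : d = y ^ 2 + (-x) ^ 3 := by rw [hd]; ring
      nlinarith [sq_nonneg y]
    have hx1 : 1 ≤ -x := by omega
    have h6 : -x ≤ (-x) ^ 3 := by nlinarith [sq_nonneg (-x)]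
    have h7 : -x ≤ 1 := by
      have h8 : -x ≤ d := h6.trans h5
      have h9 : d ^ 2 ≤ d := by
        nlinarith
      nlinarith
    have hxv : x = -1 := by omega
    have hy : y = 0 := by
      have h8 : d = y ^ 2 + 1 := by rw [hd, hxv]; ring
      have h9 : d ^ 2 ≤ 1 := by rw [hxv] at hdx; simpa using hdx
      have h10 : y ^ 2 = 0 := by nlinarith [sq_nonneg y]
      exact pow_eq_zero_iff (two_ne_zero) |>.mp h10
    rw [hxv, hy]
    rfl
  · left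
    have hxa : |x| = x := abs_of_pos hpos
    rw [hxa] at hdx
    have hxR : (0 : ℝ) < x := by exact_mod_cast hpos
    rw [abs_of_pos hxR] at h2 hlog
    refine mem_nearPts.mpr ⟨hpos, h2, h3, ?_, ?_⟩
    · apply Real.le_sqrt_of_sq_le
      exact hlog.trans h2
    · have : x ≤ x ^ 3 := by
        have : 1 ≤ x := hpos
        nlinarith [sq_nonneg x]
      exact hdx.trans this

/-- the number of exceptions to Hall's inequality with `|x| ≤ X` is `O(X^{1/3 + ε})` -/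
theorem hallExc_count : ∀ ε : ℝ, 0 < ε → ∃ C : ℝ, ∀ X : ℝ, 1 ≤ X →
      (hallExc X).Finite ∧ ((hallExc X).ncard : ℝ) ≤ C * X ^ (1 / 3 + ε) := by
  intro ε hε
  obtain ⟨C, hC, h⟩ := nearPts_count hε
  refine ⟨2 * C + 1, fun X hX => ?_⟩
  have hX0 : 0 < X := by linarith
  have hsX : 1 ≤ Real.sqrt X := Real.one_le_sqrt.mpr hX
  have hfin : (nearPts X (Real.sqrt X) ∪ {(-1, 0)}).Finite :=
    (nearPts_finite _ _).union (Set.finite_singleton _)
  refine ⟨hfin.subset (hallExc_subset X), ?_⟩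
  have h1 : ((hallExc X).ncard : ℝ) ≤ ((nearPts X (Real.sqrt X)).ncard : ℝ) + 1 := by
    have a1 := Set.ncard_le_ncard (hallExc_subset X) hfin
    have a2 := Set.ncard_union_le (nearPts X (Real.sqrt X)) ({(-1, 0)} : Set (ℤ × ℤ))
    rw [Set.ncard_singleton] at a2
    exact_mod_cast a1.trans a2
  have h2 := h X (Real.sqrt X) hX hsX
  have e1 : X ^ (1 / 4 : ℝ) * Real.sqrt X ^ (1 / 6 : ℝ) = X ^ (1 / 3 : ℝ) := by
    rw [Real.sqrt_eq_rpow, ← Real.rpow_mul hX0.le, ← Real.rpow_add hX0]; norm_num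
  have e2 : Real.sqrt X ^ (2 / 3 : ℝ) = X ^ (1 / 3 : ℝ) := by
    rw [Real.sqrt_eq_rpow, ← Real.rpow_mul hX0.le]; norm_num
  rw [e1, e2] at h2
  have e3 : C * X ^ ε * (X ^ (1 / 3 : ℝ) + X ^ (1 / 3 : ℝ)) = 2 * C * X ^ (1 / 3 + ε) := by
    rw [Real.rpow_add hX0]; ring
  rw [e3] at h2
  have e4 : 1 ≤ X ^ (1 / 3 + ε) := Real.one_le_rpow hX (by positivity)
  nlinarith

/-- for almost all `d` there is no solution with `|d|^{2/3} ≤ x ≤ D^{10/3 - δ}` -/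
theorem badDisc_count : ∀ δ : ℝ, 0 < δ → δ ≤ 1 → ∃ C : ℝ, ∀ D : ℝ, 1 ≤ D →
      ((badDisc (D ^ (10 / 3 - δ)) D).ncard : ℝ) ≤ C * D ^ (1 - δ / 8) := by
  intro δ hδ hδ1
  obtain ⟨C, hC, h⟩ := nearPts_count (ε := 3 * δ / 80) (by positivity)
  refine ⟨2 * C, fun D hD => ?_⟩
  have hD0 : 0 < D := by linarith
  set X := D ^ (10 / 3 - δ) with hX
  have hX1 : 1 ≤ X := Real.one_le_rpow hD (by linarith)
  have hsub : badDisc X D ⊆ (fun p : ℤ × ℤ => p.2 ^ 2 - p.1 ^ 3) '' (nearPts X D) := by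
    rintro d ⟨h1, h2, x, y, h3, h4, h5⟩
    have hx : 0 < x := by
      by_contra hcon
      push Not at hcon
      have h6 : x ^ 3 ≤ 0 := by
        have : x ^ 3 = -((-x) ^ 3) := by ring
        rw [this]
        have : 0 ≤ (-x) ^ 3 := pow_nonneg (by linarith) 3
        linarith
      have h7 : 0 < d ^ 2 := by positivity
      linarith
    have hd : y ^ 2 - x ^ 3 = d := by rw [h3]; ring
    refine ⟨(x, y), mem_nearPts.mpr ⟨hx, h5, ?_, ?_, ?_⟩, hd⟩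
    · intro h6
      rw [h6, sub_self] at hd
      exact h1 hd.symm
    · rw [hd]; exact h2
    · rw [hd]; exact h4
  have h1 : ((badDisc X D).ncard : ℝ) ≤ ((nearPts X D).ncard : ℝ) := by
    have a1 := Set.ncard_le_ncard hsub ((nearPts_finite X D).image _)
    have a2 := Set.ncard_image_le (f := fun p : ℤ × ℤ => p.2 ^ 2 - p.1 ^ 3) (nearPts_finite X D)
    exact_mod_cast a1.trans a2
  have h2 := h X D hX1 hD
  have e1 : X ^ (3 * δ / 80) ≤ D ^ (δ / 8) := by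
    rw [hX, ← Real.rpow_mul hD0.le]
    apply Real.rpow_le_rpow_of_exponent_le hD
    nlinarith
  have e2 : X ^ (1 / 4 : ℝ) * D ^ (1 / 6 : ℝ) = D ^ (1 - δ / 4) := by
    rw [hX, ← Real.rpow_mul hD0.le, ← Real.rpow_add hD0]
    congr 1; ring
  have e3 : D ^ (2 / 3 : ℝ) ≤ D ^ (1 - δ / 4) :=
    Real.rpow_le_rpow_of_exponent_le hD (by linarith)
  have hC0 : 0 ≤ C := by linarith
  calc ((badDisc X D).ncard : ℝ) ≤ C * X ^ (3 * δ / 80) *
        (X ^ (1 / 4 : ℝ) * D ^ (1 / 6 : ℝ) + D ^ (2 / 3 : ℝ)) := h1.trans h2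
    _ ≤ C * D ^ (δ / 8) * (D ^ (1 - δ / 4) + D ^ (1 - δ / 4)) := by
        rw [e2]
        apply mul_le_mul
        · exact mul_le_mul_of_nonneg_left e1 hC0
        · linarith
        · positivity
        · positivity
    _ = 2 * C * (D ^ (δ / 8) * D ^ (1 - δ / 4)) := by ring
    _ = 2 * C * D ^ (1 - δ / 8) := by
        rw [← Real.rpow_add hD0]; congr 2; ring


end Pool.Agent.Helper13.Hall
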